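import Pool.Agent.W762.ET.VA1
import Pool.Agent.W369.ET.VA2
import Pool.Agent.W418.ET.VA

/-!
# The variation of the mean of a representation function, general lower mean
-/

set_option autoImplicit false

open Finset MeasureTheory

namespace Pool.Agent.TH854.ET

open Pool.Agent.W247.ET

/-- Abel summation: partial sums bounded below by `-C` -/
lemma abel_aux (v w : ℕ → ℝ) (C : ℝ) (hw : ∀ n, w (n + 1) ≤ w n) (N : ℕ)
    (hV : ∀ n, 1 ≤ n → n ≤ N → -C ≤ ∑ k ∈ Icc 1 n, v k) (hN : 1 ≤ N) :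
    (∑ k ∈ Icc 1 N, v k + C) * w N ≤ ∑ k ∈ Icc 1 N, v k * w k + C * w 1 := by
  induction N with
  | zero => omega
  | succ N ih =>
    rcases Nat.eq_zero_or_pos N with h | h
    · subst h
      simp only [zero_add, Icc_self, sum_singleton]
      linarith [mul_comm (v 1) (w 1)]
    · have ih' := ih (fun n h1 h2 => hV n h1 (by omega)) h
      rw [Finset.sum_Icc_succ_top (by omega), Finset.sum_Icc_succ_top (by omega)]
      have h1 := hV N h (by omega)
      have h2 : (∑ k ∈ Icc 1 N, v k + C) * w (N + 1) ≤ (∑ k ∈ Icc 1 N, v k + C) * w N :=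
        mul_le_mul_of_nonneg_left (hw N) (by linarith)
      nlinarith

lemma abel_low (v w : ℕ → ℝ) (C : ℝ) (hw : ∀ n, w (n + 1) ≤ w n) (hw0 : ∀ n, 0 ≤ w n) (N : ℕ)
    (hV : ∀ n, 1 ≤ n → n ≤ N → -C ≤ ∑ k ∈ Icc 1 n, v k) (hN : 1 ≤ N) :
    -(C * w 1) ≤ ∑ k ∈ Icc 1 N, v k * w k := by
  have h := abel_aux v w C hw N hV hN
  have h1 := hV N hN le_rfl
  have h2 : 0 ≤ (∑ k ∈ Icc 1 N, v k + C) * w N := mul_nonneg (by linarith) (hw0 N)
  linarith

/-- the Abel mean of the representation function is at least `37/126` -/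
lemma mean_low {B : Finset ℕ} {N x₁ : ℕ}
    (hm : ∀ x : ℕ, x₁ ≤ x → x ≤ N → 59 / 100 * (x : ℝ) ≤ ∑ n ∈ Icc 1 x, (rep B n : ℝ)) {y : ℝ}
    (hy : 0 < y) (h5 : 5 ≤ (N : ℝ) * y) (hy1 : y * (x₁ + 1) ≤ 1 / 1000) :
    37 / 126 ≤ y * ∑ n ∈ Icc 1 N, (rep B n : ℝ) * Real.exp (-(2 * (n : ℝ) * y)) := by
  have hN : 1 ≤ N := by
    rcases Nat.eq_zero_or_pos N with h | h
    · subst h; norm_num at h5
    · exact h
  set q := Real.exp (-(2 * y)) with hq
  have e : ∀ n : ℕ, Real.exp (-(2 * (n : ℝ) * y)) = q ^ n := by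
    intro n
    rw [hq, ← Real.exp_nat_mul]
    congr 1
    ring
  simp only [e]
  have hq0 : 0 < q := Real.exp_pos _
  have hy2 : y ≤ 1 / 1000 := by
    have : 0 ≤ y * x₁ := by positivity
    linarith
  have hyx : y * x₁ ≤ 1 / 1000 := by linarith
  have hq1 : 1 - q ≤ 2 * y := by
    have := Real.add_one_le_exp (-(2 * y))
    linarith
  have hqlt : q < 1 := by
    rw [hq, Real.exp_lt_one_iff]
    linarith
  -- Abel summation
  have h1 := abel_low (fun n => (rep B n : ℝ) - 59 / 100) (fun n => q ^ n) (59 / 100 * x₁)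
    (fun n => pow_le_pow_of_le_one hq0.le hqlt.le (Nat.le_succ n)) (fun n => by positivity) N
    (fun n hn1 hn2 => by
      rw [sum_sub_distrib, sum_const, Nat.card_Icc, nsmul_eq_mul, Nat.add_sub_cancel]
      by_cases hx : x₁ ≤ n
      · have h := hm n hx hn2
        have h0 : (0 : ℝ) ≤ x₁ := Nat.cast_nonneg _
        linarith
      · have h0 : 0 ≤ ∑ k ∈ Icc 1 n, (rep B k : ℝ) := sum_nonneg fun _ _ => by positivity
        have h2 : (n : ℝ) ≤ x₁ := by exact_mod_cast (by omega : n ≤ x₁)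
        linarith) hN
  have h2 : ∑ k ∈ Icc 1 N, ((rep B k : ℝ) - 59 / 100) * q ^ k =
      ∑ k ∈ Icc 1 N, (rep B k : ℝ) * q ^ k - 59 / 100 * ∑ k ∈ Icc 1 N, q ^ k := by
    rw [mul_sum, ← sum_sub_distrib]
    exact sum_congr rfl fun _ _ => by ring
  rw [h2, pow_one] at h1
  -- the geometric sum
  have hg := Pool.Agent.W369.ET.geom q N
  have hS0 : 0 ≤ ∑ n ∈ Icc 1 N, q ^ n := Finset.sum_nonneg fun n _ => by positivity
  have hq3 : q ^ (N + 1) ≤ 1 / 10000 := by
    have e3 : q ^ N = Real.exp (-(2 * ((N : ℝ) * y))) := by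
      rw [hq, ← Real.exp_nat_mul]
      congr 1
      ring
    have h4 : q ^ (N + 1) ≤ Real.exp (-10) := by
      calc q ^ (N + 1) ≤ q ^ N := pow_le_pow_of_le_one hq0.le hqlt.le (Nat.le_succ N)
        _ ≤ Real.exp (-10) := by
          rw [e3]
          exact Real.exp_le_exp.2 (by linarith)
    have h5' : Real.exp (-10) ≤ 1 / 10000 := by
      rw [Real.exp_neg]
      have h7 := Real.exp_one_gt_d9
      have h8 : Real.exp 10 = Real.exp 1 ^ 10 := by
        rw [← Real.exp_nat_mul]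
        norm_num
      have h9 : (2.7 : ℝ) ^ 10 ≤ Real.exp 1 ^ 10 :=
        pow_le_pow_left₀ (by norm_num) (by linarith) 10
      have h10 : (10000 : ℝ) ≤ Real.exp 10 := by
        rw [h8]
        refine le_trans ?_ h9
        norm_num
      rw [inv_le_comm₀ (Real.exp_pos _) (by norm_num)]
      refine le_trans ?_ h10
      norm_num
    exact h4.trans h5'
  have h10 : q - q ^ (N + 1) ≤ 2 * y * ∑ n ∈ Icc 1 N, q ^ n := by
    rw [← hg]
    exact mul_le_mul_of_nonneg_right hq1 hS0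
  have h11 : y * (∑ k ∈ Icc 1 N, (rep B k : ℝ) * q ^ k - 59 / 100 * ∑ k ∈ Icc 1 N, q ^ k) ≥
      y * (-(59 / 100 * x₁ * q)) := mul_le_mul_of_nonneg_left h1 hy.le
  have h12 : y * (59 / 100 * x₁ * q) ≤ 59 / 100 * (1 / 1000) := by
    have : y * x₁ * q ≤ 1 / 1000 * 1 := mul_le_mul hyx hqlt.le hq0.le (by norm_num)
    calc y * (59 / 100 * x₁ * q) = 59 / 100 * (y * x₁ * q) := by ring
      _ ≤ 59 / 100 * (1 / 1000 * 1) := by linarith
      _ = _ := by ring
  nlinarith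

/-- the pointwise estimate -/
lemma part3' {B : Finset ℕ} {N x₁ : ℕ} (hB : B ⊆ Icc 1 N)
    (hm : ∀ x : ℕ, x₁ ≤ x → x ≤ N → 59 / 100 * (x : ℝ) ≤ ∑ n ∈ Icc 1 x, (rep B n : ℝ)) {y : ℝ}
    (hy : 0 < y) (h5 : 5 ≤ (N : ℝ) * y) (hy1 : y * (x₁ + 1) ≤ 1 / 1000) :
    Dd B y ^ 2 ≤ 63 / 74 * (y * Hh B N y ^ 2) := by
  set φ : ℝ := ∑ a ∈ B, Real.exp (-(2 * (a : ℝ) * y)) with hφ
  have hPsi : φ ^ 2 = ∑ n ∈ Icc 1 (2 * N), (rep B n : ℝ) * Real.exp (-(2 * (n : ℝ) * y)) := by
    rw [← Pool.Agent.W369.ET.group hB (fun n => Real.exp (-(2 * (n : ℝ) * y))), sq, hφ,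
      Finset.sum_mul_sum]
    refine Finset.sum_congr rfl fun a _ => Finset.sum_congr rfl fun b _ => ?_
    rw [← Real.exp_add]
    congr 1
    push_cast
    ring
  have hHh : 2 * φ * Dd B y = Hh B N y := by
    unfold Hh
    rw [← Pool.Agent.W369.ET.group hB
      (fun n => (1 - 2 * (n : ℝ) * y) * Real.exp (-(2 * (n : ℝ) * y)))]
    have e1 : 2 * φ * Dd B y = Dd B y * φ + φ * Dd B y := by ring
    rw [e1, hφ, Dd, Finset.sum_mul_sum, Finset.sum_mul_sum, ← Finset.sum_add_distrib]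
    refine Finset.sum_congr rfl fun a _ => ?_
    rw [← Finset.sum_add_distrib]
    refine Finset.sum_congr rfl fun b _ => ?_
    have e2 : Real.exp (-(2 * ((a + b : ℕ) : ℝ) * y)) =
        Real.exp (-(2 * (a : ℝ) * y)) * Real.exp (-(2 * (b : ℝ) * y)) := by
      rw [← Real.exp_add]
      congr 1
      push_cast
      ring
    rw [e2]
    push_cast
    ring
  have h1 := mean_low hm hy h5 hy1
  have h2 : ∑ n ∈ Icc 1 N, (rep B n : ℝ) * Real.exp (-(2 * (n : ℝ) * y)) ≤ φ ^ 2 := by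
    rw [hPsi]
    refine Finset.sum_le_sum_of_subset_of_nonneg (fun n hn => ?_) fun n _ _ => by positivity
    have := Finset.mem_Icc.1 hn
    exact Finset.mem_Icc.2 ⟨this.1, by omega⟩
  have hfin : 37 / 126 ≤ y * φ ^ 2 := h1.trans (mul_le_mul_of_nonneg_left h2 hy.le)
  rw [← hHh]
  have h3 : 63 / 74 * (y * (2 * φ * Dd B y) ^ 2) = 126 / 37 * (y * φ ^ 2) * Dd B y ^ 2 := by ring
  rw [h3]
  have h4 := sq_nonneg (Dd B y)
  nlinarith

/-- the variation of the mean, in terms of the kernel `kap` -/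
theorem va (K x₁ : ℕ) : ∃ C : ℝ, ∀ (B : Finset ℕ) (N : ℕ), B ⊆ Icc 1 N →
    (∀ n, rep B n ≤ K) →
    (∀ x : ℕ, x₁ ≤ x → x ≤ N → 59 / 100 * (x : ℝ) ≤ ∑ n ∈ Icc 1 x, (rep B n : ℝ)) →
    VV B ≤ 63 / 74 * ∑ n ∈ Icc 1 (2 * N), ∑ m ∈ Icc 1 (2 * N), (rep B n : ℝ) * rep B m * kap n m
      + C := by
  set y₀ : ℝ := 1 / (1000 * (x₁ + 1)) with hy₀
  have hy₀0 : 0 < y₀ := by positivity
  refine ⟨5 / 2 * K + K * (1 / y₀), fun B N hB hK hm => ?_⟩
  rcases Nat.eq_zero_or_pos N with rfl | hN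
  · have hB0 : B = ∅ := by
      rw [← Finset.subset_empty]
      simpa using hB
    subst hB0
    simp [VV]
    positivity
  have hN' : (0 : ℝ) < N := by exact_mod_cast hN
  obtain ⟨i1, e1, i2, e2⟩ := Pool.Agent.W762.ET.VA1.main B N hB
  set f1 : ℝ → ℝ := fun y => 63 / 74 * (y * Hh B N y ^ 2) with hf1
  set f3 : ℝ → ℝ := (Set.Ioc (0 : ℝ) (5 / N)).indicator (fun _ => (K : ℝ) * N / 2) with hf3
  set f4 : ℝ → ℝ := (Set.Ioi y₀).indicator
    (fun y => (K : ℝ) * ∑ n ∈ Icc 1 (2 * N), Real.exp (-((n : ℝ) * y))) with hf4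
  have hexp : ∀ (a c : ℝ), 0 < a → IntegrableOn (fun y => Real.exp (-(a * y))) (Set.Ioi c) ∧
      ∫ y in Set.Ioi c, Real.exp (-(a * y)) = Real.exp (-(a * c)) / a := by
    intro a c ha
    have e : ∀ y : ℝ, -(a * y) = (-a) * y := fun y => by ring
    simp only [e]
    refine ⟨integrableOn_exp_mul_Ioi (by linarith) c, ?_⟩
    rw [integral_exp_mul_Ioi (by linarith) c]
    rw [div_neg, neg_div, neg_neg]
  have hpos : ∀ n ∈ Icc 1 (2 * N), (0 : ℝ) < n := fun n hn => by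
    have := (mem_Icc.1 hn).1
    exact_mod_cast this
  have I1 : IntegrableOn f1 (Set.Ioi 0) := i2.const_mul _
  have I3 : IntegrableOn f3 (Set.Ioi 0) := by
    refine ((integrable_indicator_iff measurableSet_Ioc).2 ?_).integrableOn
    exact integrableOn_const (by simp)
  have I4' : IntegrableOn (fun y => (K : ℝ) * ∑ n ∈ Icc 1 (2 * N), Real.exp (-((n : ℝ) * y)))
      (Set.Ioi y₀) :=
    (integrable_finsetSum _ fun n hn => (hexp _ y₀ (hpos n hn)).1).const_mul _
  have I4 : IntegrableOn f4 (Set.Ioi 0) :=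
    ((integrable_indicator_iff measurableSet_Ioi).2 I4').integrableOn
  have hsum0 : ∀ (S : Finset ℕ) (g : ℕ → ℝ), 0 ≤ ∑ n ∈ S, Real.exp (g n) := fun S g =>
    Finset.sum_nonneg fun n _ => (Real.exp_pos _).le
  have hle : ∀ y ∈ Set.Ioi (0 : ℝ), Dd B y ^ 2 ≤ f1 y + f3 y + f4 y := by
    intro y hy
    have hy0 : 0 < y := hy
    have p1 := Pool.Agent.W369.ET.part1 hB hK hy0
    have p2 := Pool.Agent.W369.ET.part2 hB hK hy0
    have g1 : 0 ≤ f1 y := by
      simp only [hf1]; positivity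
    have g3 : 0 ≤ f3 y := Set.indicator_nonneg (fun _ _ => by positivity) y
    have g4 : 0 ≤ f4 y := Set.indicator_nonneg
      (fun _ _ => mul_nonneg (by positivity) (hsum0 _ _)) y
    by_cases c1 : y < 5 / N
    · have : f3 y = (K : ℝ) * N / 2 := by
        rw [hf3, Set.indicator_of_mem]
        exact ⟨hy0, c1.le⟩
      linarith
    · by_cases c2 : y₀ < y
      · have : f4 y = (K : ℝ) * ∑ n ∈ Icc 1 (2 * N), Real.exp (-((n : ℝ) * y)) := by
          rw [hf4, Set.indicator_of_mem]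
          exact c2
        linarith
      · have h5 : 5 ≤ (N : ℝ) * y := by
          have := not_lt.1 c1
          rw [div_le_iff₀ hN'] at this
          linarith
        have h6 : y * (x₁ + 1) ≤ 1 / 1000 := by
          have h7 := not_lt.1 c2
          calc y * (x₁ + 1) ≤ y₀ * (x₁ + 1) :=
                mul_le_mul_of_nonneg_right h7 (by positivity)
            _ = 1 / 1000 := by
                rw [hy₀]
                field_simp
        have := part3' hB hm hy0 h5 h6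
        have e : f1 y = 63 / 74 * (y * Hh B N y ^ 2) := rfl
        linarith
  have hmono := setIntegral_mono_on i1 ((I1.add I3).add I4) measurableSet_Ioi hle
  rw [e1] at hmono
  refine hmono.trans ?_
  have s1 : ∫ y in Set.Ioi (0 : ℝ), f1 y = 63 / 74 *
      ∑ n ∈ Icc 1 (2 * N), ∑ m ∈ Icc 1 (2 * N), (rep B n : ℝ) * rep B m * kap n m := by
    simp only [hf1]
    rw [integral_const_mul, e2]
  have s3 : ∫ y in Set.Ioi (0 : ℝ), f3 y = 5 / 2 * K := by
    rw [hf3, setIntegral_indicator measurableSet_Ioc]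
    have e : Set.Ioi (0 : ℝ) ∩ Set.Ioc 0 (5 / (N : ℝ)) = Set.Ioc 0 (5 / (N : ℝ)) := by
      ext y; simp only [Set.mem_inter_iff, Set.mem_Ioi, Set.mem_Ioc]; tauto
    rw [e, setIntegral_const]
    simp only [Real.volume_real_Ioc, sub_zero, smul_eq_mul]
    rw [max_eq_left (by positivity)]
    field_simp
  have s4 : ∫ y in Set.Ioi (0 : ℝ), f4 y ≤ K * (1 / y₀) := by
    rw [hf4, setIntegral_indicator measurableSet_Ioi]
    have e : Set.Ioi (0 : ℝ) ∩ Set.Ioi y₀ = Set.Ioi y₀ := by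
      ext y; simp only [Set.mem_inter_iff, Set.mem_Ioi]
      constructor
      · exact fun h => h.2
      · intro h; exact ⟨by linarith, h⟩
    rw [e, integral_const_mul, integral_finsetSum _ fun n hn => (hexp _ y₀ (hpos n hn)).1]
    rw [Finset.sum_congr rfl fun n hn => (hexp _ y₀ (hpos n hn)).2]
    refine mul_le_mul_of_nonneg_left ?_ (by positivity)
    have h1 : ∑ n ∈ Icc 1 (2 * N), Real.exp (-((n : ℝ) * y₀)) / (n : ℝ) ≤
        ∑ n ∈ Icc 1 (2 * N), Real.exp (-y₀) ^ n := by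
      refine Finset.sum_le_sum fun n hn => ?_
      have hn1 : (1 : ℝ) ≤ n := by
        have := (mem_Icc.1 hn).1
        exact_mod_cast this
      have e5 : Real.exp (-y₀) ^ n = Real.exp (-((n : ℝ) * y₀)) := by
        rw [← Real.exp_nat_mul]
        congr 1
        ring
      rw [e5]
      exact div_le_self (Real.exp_pos _).le hn1
    refine h1.trans ?_
    have hg := Pool.Agent.W369.ET.geom (Real.exp (-y₀)) (2 * N)
    have hq : 0 < Real.exp (-y₀) := Real.exp_pos _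
    have hq1 : y₀ * Real.exp (-y₀) ≤ 1 - Real.exp (-y₀) := by
      have h3 := Real.add_one_le_exp y₀
      have h4 : Real.exp (-y₀) * Real.exp y₀ = 1 := by
        rw [← Real.exp_add, neg_add_cancel, Real.exp_zero]
      nlinarith
    have hq2 : 0 < 1 - Real.exp (-y₀) := lt_of_lt_of_le (by positivity) hq1
    have hq3 : 0 < Real.exp (-y₀) ^ (2 * N + 1) := by positivity
    rw [le_div_iff₀ hy₀0]
    have h5 : (1 - Real.exp (-y₀)) * ((∑ n ∈ Icc 1 (2 * N), Real.exp (-y₀) ^ n) * y₀) ≤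
        (1 - Real.exp (-y₀)) * 1 := by
      rw [← mul_assoc, hg]
      nlinarith
    exact le_of_mul_le_mul_left h5 hq2
  have hadd : ∫ y in Set.Ioi (0 : ℝ), (f1 y + f3 y + f4 y) =
      (∫ y in Set.Ioi (0 : ℝ), f1 y) + (∫ y in Set.Ioi (0 : ℝ), f3 y) +
        ∫ y in Set.Ioi (0 : ℝ), f4 y := by
    have a1 := integral_add I1 I3
    have a2 := integral_add (I1.add I3) I4
    simp only [Pi.add_apply] at a1 a2
    rw [a2, a1]
  calc _ = ∫ y in Set.Ioi (0 : ℝ), (f1 y + f3 y + f4 y) := rfl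
    _ ≤ _ := by
      rw [hadd, s1, s3]
      linarith

end Pool.Agent.TH854.ET
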