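import Pool.Agent.W247.ET.All
import Pool.Agent.TH854.ET.P1

/-!
# The variance law for finite sets
-/

set_option autoImplicit false

open Finset MeasureTheory

namespace Pool.Agent.TH854.ET

open Pool.Agent.W247.ET

/-- recentering of the kernel sum at an arbitrary point -/
theorem vc (K : ℕ) (lam : ℝ) : ∃ C : ℝ, 0 ≤ C ∧ ∀ (u : ℕ → ℝ) (L : ℕ),
    (∀ n, 0 ≤ u n ∧ u n ≤ K) →
    ∑ n ∈ Icc 1 L, ∑ m ∈ Icc 1 L, u n * u m * kap n m ≤
      ∑ n ∈ Icc 1 L, ∑ m ∈ Icc 1 L, (u n - lam) * (u m - lam) * kap n m + C := by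
  refine ⟨2 * ((|lam| * K + lam ^ 2 / 2) * (5 / 4)), by positivity, ?_⟩
  intro u L hu
  set kb := Pool.Agent.W369.ET.kb
  have h1 : ∑ n ∈ Icc 1 L, ∑ m ∈ Icc 1 L, u n * u m * kap n m =
      ∑ n ∈ Icc 1 L, ∑ m ∈ Icc 1 L, (u n - lam) * (u m - lam) * kap n m +
      ∑ n ∈ Icc 1 L, (lam * u n - lam ^ 2 / 2) * kb n L +
      ∑ n ∈ Icc 1 L, (lam * u n - lam ^ 2 / 2) * kb n L := by
    have h2 : ∑ n ∈ Icc 1 L, (lam * u n - lam ^ 2 / 2) * kb n L =
        ∑ n ∈ Icc 1 L, ∑ m ∈ Icc 1 L, (lam * u n - lam ^ 2 / 2) * kap n m :=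
      Finset.sum_congr rfl fun n _ => by
        show (lam * u n - lam ^ 2 / 2) * ∑ m ∈ Icc 1 L, kap n m = _
        rw [Finset.mul_sum]
    have h3 : ∑ n ∈ Icc 1 L, ∑ m ∈ Icc 1 L, (lam * u n - lam ^ 2 / 2) * kap n m =
        ∑ n ∈ Icc 1 L, ∑ m ∈ Icc 1 L, (lam * u m - lam ^ 2 / 2) * kap n m := by
      rw [Finset.sum_comm]
      refine Finset.sum_congr rfl fun n _ => Finset.sum_congr rfl fun m _ => ?_
      rw [Pool.Agent.W369.ET.kap_symm]
    conv_rhs => rw [h2]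
    conv_rhs => arg 2; rw [h3]
    rw [← Finset.sum_add_distrib, ← Finset.sum_add_distrib]
    refine Finset.sum_congr rfl fun n _ => ?_
    rw [← Finset.sum_add_distrib, ← Finset.sum_add_distrib]
    refine Finset.sum_congr rfl fun m _ => ?_
    ring
  have h4 : ∑ n ∈ Icc 1 L, (lam * u n - lam ^ 2 / 2) * kb n L ≤
      (|lam| * K + lam ^ 2 / 2) * (5 / 4) := by
    have h5 : ∀ n ∈ Icc 1 L, (lam * u n - lam ^ 2 / 2) * kb n L ≤
        (|lam| * K + lam ^ 2 / 2) * |kb n L| := by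
      intro n _
      obtain ⟨h6, h7⟩ := hu n
      have h8 : |lam * u n - lam ^ 2 / 2| ≤ |lam| * K + lam ^ 2 / 2 := by
        refine (abs_sub _ _).trans ?_
        rw [abs_mul, abs_of_nonneg h6, abs_of_nonneg (a := lam ^ 2 / 2) (by positivity)]
        have := mul_le_mul_of_nonneg_left h7 (abs_nonneg lam)
        linarith
      calc (lam * u n - lam ^ 2 / 2) * kb n L ≤ |(lam * u n - lam ^ 2 / 2) * kb n L| :=
            le_abs_self _
        _ = |lam * u n - lam ^ 2 / 2| * |kb n L| := abs_mul _ _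
        _ ≤ _ := mul_le_mul_of_nonneg_right h8 (abs_nonneg _)
    refine (Finset.sum_le_sum h5).trans ?_
    rw [← Finset.mul_sum]
    exact mul_le_mul_of_nonneg_left (Pool.Agent.W369.ET.sum_kb L) (by positivity)
  rw [h1]
  linarith

theorem law_fin (K x₁ : ℕ) (lam ε : ℝ) (hε : 0 < ε) : ∃ C : ℝ, ∀ (B : Finset ℕ) (N : ℕ),
    B ⊆ Icc 1 N → (∀ n, rep B n ≤ K) →
    (∀ x : ℕ, x₁ ≤ x → x ≤ N → 59 / 100 * (x : ℝ) ≤ ∑ n ∈ Icc 1 x, (rep B n : ℝ)) →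
    1369 / 1260 * ∑ n ∈ Icc 1 (2 * N), (rep B n : ℝ) / n ≤
      ∑ n ∈ Icc 1 (2 * N), ((rep B n : ℝ) - lam) ^ 2 / n +
        ε * ∑ n ∈ Icc 1 (2 * N), 1 / (n : ℝ) + C := by
  classical
  have hASM : ASM_stmt := Pool.Agent.W119.ET.main Pool.Agent.W19.ET.main
    Pool.Agent.W641.ET.main Pool.Agent.W723.ET.main
  have hLOW : LOW_stmt := Pool.Agent.W930.ET.LOW.main
  have hENE : ENE_stmt := Pool.Agent.W73.ET.ENE.main
  have hUPX : UPX_stmt := Pool.Agent.W356.ET.UPX.main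
      (Pool.Agent.W654.ET.RS.main Pool.Agent.W975.ET.main) Pool.Agent.W591.ET.UPY.main
  have hVB : VB_stmt := Pool.Agent.W451.ET.VB.main
  have hVD : VD_stmt := Pool.Agent.W253.ET.VD.main
  have hMS : MS_stmt := Pool.Agent.W381.ET.MS.main
  obtain ⟨C0, hC0, hE⟩ := hENE
  -- choice of J
  obtain ⟨J, hJ⟩ := exists_nat_ge ((2 * (C0 * (K : ℝ) ^ 2) / (315 / 32 * ε)) ^ 2 + 1)
  have hJ1 : 1 ≤ J := by
    have : (1 : ℝ) ≤ J := by nlinarith [sq_nonneg (2 * (C0 * (K : ℝ) ^ 2) / (315 / 32 * ε))]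
    exact_mod_cast this
  have hJ0 : (0 : ℝ) < J := by exact_mod_cast hJ1
  have hsJ : 2 * (C0 * (K : ℝ) ^ 2) / (315 / 32 * ε) ≤ √(J : ℝ) := by
    apply Real.le_sqrt_of_sq_le
    linarith
  have hsJ0 : 0 < √(J : ℝ) := Real.sqrt_pos.2 hJ0
  have hsmall : 2 / √(J : ℝ) * (C0 * (K : ℝ) ^ 2) ≤ 315 / 32 * ε := by
    rw [div_mul_eq_mul_div, div_le_iff₀ hsJ0]
    rw [div_le_iff₀ (by positivity)] at hsJ
    linarith
  obtain ⟨CU, hU⟩ := hUPX K J hJ1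
  obtain ⟨CA, hA⟩ := va K x₁
  obtain ⟨CB, hB⟩ := hVB K J hJ1
  obtain ⟨CC, hCC0, hC⟩ := vc K lam
  obtain ⟨CD, hD⟩ := hVD (K + |lam|)
  obtain ⟨CM, hM⟩ := hMS K J hJ1
  refine ⟨32 / 315 * (CU + 185 / 8 * (63 / 74 * (|CD| + CC + |CB|) + |CA|)) + 2 * |lam| * |CM|,
    ?_⟩
  intro B N hBsub hrepK hmean
  set R : ℕ → ℝ := fun n => (rep B n : ℝ) with hR
  have hRK : ∀ n, 0 ≤ R n ∧ R n ≤ K := fun n => ⟨by positivity, by
    show (rep B n : ℝ) ≤ K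
    exact_mod_cast hrepK n⟩
  have hR0 : ∀ n, 2 * N < n → R n = 0 := by
    intro n hn
    show ((rep B n : ℕ) : ℝ) = 0
    have : rep B n = 0 := by
      unfold rep
      rw [card_eq_zero, filter_eq_empty_iff]
      intro p hp
      rw [mem_product] at hp
      have h1 := mem_Icc.1 (hBsub hp.1)
      have h2 := mem_Icc.1 (hBsub hp.2)
      omega
    rw [this]; simp
  set W : ℕ → ℝ := fun n => Mw R J n with hW
  have hWK : ∀ n, 0 ≤ W n ∧ W n ≤ K := fun n => Mw_nonneg hRK J n hJ1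
  set L := 2 * N with hL
  have hpos : ∀ n ∈ Icc 1 L, (0 : ℝ) < n := fun n hn => by
    exact_mod_cast (mem_Icc.1 hn).1
  set s1 : ℝ := ∑ n ∈ Icc 1 L, R n ^ 2 / n with hs1
  set s2 : ℝ := ∑ n ∈ Icc 1 L, W n ^ 2 / n with hs2
  set s3 : ℝ := ∑ n ∈ Icc 1 L, R n / n with hs3
  set s4 : ℝ := ∑ n ∈ Icc 1 L, W n / n with hs4
  set s0 : ℝ := ∑ n ∈ Icc 1 L, 1 / (n : ℝ) with hs0
  have hs0nn : 0 ≤ s0 := sum_nonneg fun n _ => by positivity
  have hTeq : ∑ n ∈ Icc 1 L, (W n - lam) ^ 2 / n = s2 - 2 * lam * s4 + lam ^ 2 * s0 := by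
    rw [hs2, hs4, hs0, mul_sum, mul_sum, ← sum_sub_distrib, ← sum_add_distrib]
    refine sum_congr rfl fun n hn => ?_
    have := hpos n hn
    field_simp
    ring
  have hReq : ∑ n ∈ Icc 1 L, (R n - lam) ^ 2 / n = s1 - 2 * lam * s3 + lam ^ 2 * s0 := by
    rw [hs1, hs3, hs0, mul_sum, mul_sum, ← sum_sub_distrib, ← sum_add_distrib]
    refine sum_congr rfl fun n hn => ?_
    have := hpos n hn
    field_simp
    ring
  -- (1), (2)
  obtain ⟨-, h1⟩ := hASM B N J hBsub hJ1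
  have h2 := hLOW B N hBsub
  have h2' : ∑ p ∈ B ×ˢ B, 1 / ((p.1 : ℝ) + p.2) = s3 := by
    have := sum_pairs B N hBsub (fun n => 1 / (n : ℝ))
    push_cast at this
    rw [this, hs3]
    refine sum_congr rfl fun n _ => ?_
    simp only [hR]
    ring
  rw [h2'] at h2
  -- (3)
  have h3 : QS P2 B 0 0 ≤ C0 * (K ^ 2 * s0) := by
    refine (hE B N hBsub).trans ?_
    refine mul_le_mul_of_nonneg_left ?_ hC0.le
    rw [hs0, mul_sum]
    refine sum_le_sum fun n hn => ?_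
    have hn' := hpos n hn
    have h5 := hRK n
    have h6 : (R n) ^ 2 ≤ (K : ℝ) ^ 2 := by
      exact pow_le_pow_left₀ h5.1 h5.2 2
    show (R n) ^ 2 / (n : ℝ) ≤ (K : ℝ) ^ 2 * (1 / (n : ℝ))
    rw [mul_one_div]
    exact div_le_div_of_nonneg_right h6 hn'.le
  have h3' : 2 / √(J : ℝ) * QS P2 B 0 0 ≤ 315 / 32 * ε * s0 := by
    calc 2 / √(J : ℝ) * QS P2 B 0 0 ≤ 2 / √(J : ℝ) * (C0 * (K ^ 2 * s0)) :=
          mul_le_mul_of_nonneg_left h3 (by positivity)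
      _ = 2 / √(J : ℝ) * (C0 * (K : ℝ) ^ 2) * s0 := by ring
      _ ≤ 315 / 32 * ε * s0 := mul_le_mul_of_nonneg_right hsmall hs0nn
  -- (4)
  have h4 : LK B J ≤ 315 / 32 * (s1 - s2) + CU := by
    have := hU B N hBsub hrepK
    have e : ∑ n ∈ Icc 1 (2 * N), ((rep B n : ℝ) ^ 2 - M B J n ^ 2) / n = s1 - s2 := by
      rw [hs1, hs2, ← sum_sub_distrib]
      refine sum_congr rfl fun n _ => ?_
      rw [sub_div]
      rfl
    rw [e] at this
    exact this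
  -- (5)
  have h5 := hA B N hBsub hrepK hmean
  have h6 : ∑ n ∈ Icc 1 L, ∑ m ∈ Icc 1 L, R n * R m * kap n m ≤
      ∑ n ∈ Icc 1 L, ∑ m ∈ Icc 1 L, W n * W m * kap n m + CB := hB R L hRK hR0
  have h7 := hC W L hWK
  have h8 := hD (fun n => W n - lam) L (fun n => by
    have := hWK n
    have h9 := abs_nonneg lam
    have h10 := neg_abs_le lam
    have h11 := le_abs_self lam
    rw [abs_le]
    constructor
    · linarith [this.1, (Nat.cast_nonneg K : (0 : ℝ) ≤ K)]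
    · linarith [this.2])
  rw [hTeq] at h8
  have h5' : VV B ≤ 63 / 74 * ∑ n ∈ Icc 1 L, ∑ m ∈ Icc 1 L, R n * R m * kap n m + CA := h5
  have h10 := abs_le.1 (hM R L hRK hR0)
  have h10' : -CM ≤ s4 - s3 ∧ s4 - s3 ≤ CM := h10
  have h11 : -(|lam| * |CM|) ≤ lam * (s4 - s3) := by
    have h12 : |lam * (s4 - s3)| ≤ |lam| * |CM| := by
      rw [abs_mul]
      refine mul_le_mul_of_nonneg_left ?_ (abs_nonneg _)
      rw [abs_le]
      constructor
      · linarith [h10'.1, le_abs_self CM]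
      · linarith [h10'.2, le_abs_self CM]
    linarith [neg_abs_le (lam * (s4 - s3))]
  have hgoal : ∑ n ∈ Icc 1 (2 * N), ((rep B n : ℝ) - lam) ^ 2 / n =
      s1 - 2 * lam * s3 + lam ^ 2 * s0 := hReq
  rw [hgoal]
  have a1 := le_abs_self CD
  have a3 := le_abs_self CB
  have a4 := le_abs_self CA
  set T : ℝ := s2 - 2 * lam * s4 + lam ^ 2 * s0 with hT
  have e1 : VV B ≤ 63 / 74 * (1 / 2 * T + |CD| + CC + |CB|) + |CA| := by
    have : 63 / 74 * ∑ n ∈ Icc 1 L, ∑ m ∈ Icc 1 L, R n * R m * kap n m ≤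
        63 / 74 * (1 / 2 * T + |CD| + CC + |CB|) := by
      apply mul_le_mul_of_nonneg_left _ (by norm_num)
      linarith
    linarith
  have e2 : 2 * |lam| * |CM| = 2 * (|lam| * |CM|) := by ring
  have e3 : lam * (s4 - s3) = lam * s4 - lam * s3 := by ring
  rw [e3] at h11
  have e4 : T = s2 - 2 * (lam * s4) + lam ^ 2 * s0 := by rw [hT]; ring
  have e5 : s1 - 2 * lam * s3 + lam ^ 2 * s0 = s1 - 2 * (lam * s3) + lam ^ 2 * s0 := by ring
  rw [e2, e5]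
  have e6 : 315 / 32 * ε * s0 = 315 / 32 * (ε * s0) := by ring
  rw [e6] at h3'
  clear_value s0 s1 s2 s3 s4 T
  linarith

end Pool.Agent.TH854.ET
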