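import Pool.Agent.TH854.ET.P2

/-!
# The variance law for infinite sets
-/

set_option autoImplicit false

open Finset

namespace Pool.Agent.TH854.ET

open Pool.Agent.W247.ET Pool.Agent.W962.ET

theorem r_le_rep (A : Set ℕ) (N n : ℕ) (hn1 : 1 ≤ n) (hnN : n ≤ N) :
    r A n ≤ rep (cut A N) n + (if n ∈ cut A N then 2 else 0) := by
  classical
  by_cases hnA : n ∈ A
  · have hc : n ∈ cut A N := mem_cut.2 ⟨⟨hn1, hnN⟩, hnA⟩
    rw [if_pos hc, r_eq, rep_eq]
    have hsub : rf A n ⊆ rs (cut A N) n ∪ {(0, n), (n, 0)} := by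
      intro p hp
      unfold rf at hp
      rw [mem_filter, HasAntidiagonal.mem_antidiagonal] at hp
      obtain ⟨h1, h2, h3⟩ := hp
      rw [mem_union]
      by_cases h4 : p.1 = 0
      · right
        have : p.2 = n := by omega
        rw [mem_insert]
        left
        exact Prod.ext h4 this
      · by_cases h5 : p.2 = 0
        · right
          have : p.1 = n := by omega
          rw [mem_insert, mem_singleton]
          right
          exact Prod.ext this h5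
        · left
          exact mem_rs.mpr ⟨⟨mem_cut.mpr ⟨⟨by omega, by omega⟩, h2⟩,
            mem_cut.mpr ⟨⟨by omega, by omega⟩, h3⟩⟩, h1⟩
    refine (card_le_card hsub).trans ((card_union_le _ _).trans ?_)
    exact Nat.add_le_add_left (card_le_two) _
  · rw [← rep_eq_r A N n hnN hnA]
    exact Nat.le_add_right _ _

theorem card_cut_sq (A : Set ℕ) (K x : ℕ) (hK : ∀ n, r A n ≤ K) :
    ((cut A x).card : ℝ) ^ 2 ≤ 2 * x * K := by
  have hB : cut A x ⊆ Icc 1 x := fun a ha => by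
    have := (mem_cut.1 ha).1
    exact mem_Icc.2 this
  have h5 := Pool.Agent.W369.ET.group hB (fun _ => (1 : ℝ))
  simp only [Finset.sum_const, nsmul_eq_mul, mul_one] at h5
  rw [sq, h5]
  have h6 : ∑ n ∈ Icc 1 (2 * x), (rep (cut A x) n : ℝ) ≤ ∑ n ∈ Icc 1 (2 * x), (K : ℝ) :=
    Finset.sum_le_sum fun n _ => by exact_mod_cast (rep_le A x n).trans (hK n)
  refine h6.trans (le_of_eq ?_)
  rw [Finset.sum_const, nsmul_eq_mul, Nat.card_Icc]
  push_cast
  simp

theorem mean_cut (A : Set ℕ) (K N x : ℕ) (hK : ∀ n, r A n ≤ K) (hx : 80000 * K ≤ x) (hxN : x ≤ N)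
    (h : 3 / 5 * (x : ℝ) ≤ ∑ n ∈ Icc 1 x, (r A n : ℝ)) :
    59 / 100 * (x : ℝ) ≤ ∑ n ∈ Icc 1 x, (rep (cut A N) n : ℝ) := by
  classical
  have h1 : ∑ n ∈ Icc 1 x, (r A n : ℝ) ≤ ∑ n ∈ Icc 1 x, (rep (cut A N) n : ℝ) +
      ∑ n ∈ Icc 1 x, (if n ∈ cut A N then (2 : ℝ) else 0) := by
    rw [← sum_add_distrib]
    refine sum_le_sum fun n hn => ?_
    obtain ⟨h2, h3⟩ := mem_Icc.1 hn
    have h4 := r_le_rep A N n h2 (by omega)
    have h5 : ((r A n : ℕ) : ℝ) ≤ ((rep (cut A N) n + (if n ∈ cut A N then 2 else 0) : ℕ) : ℝ) := by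
      exact_mod_cast h4
    refine h5.trans (le_of_eq ?_)
    push_cast
    rfl
  have h2 : ∑ n ∈ Icc 1 x, (if n ∈ cut A N then (2 : ℝ) else 0) ≤ 2 * (cut A x).card := by
    rw [← sum_filter, sum_const, nsmul_eq_mul, mul_comm]
    refine mul_le_mul_of_nonneg_left ?_ (by norm_num)
    exact_mod_cast card_le_card fun n hn => by
      obtain ⟨h3, h4⟩ := mem_filter.1 hn
      exact mem_cut.2 ⟨mem_Icc.1 h3, (mem_cut.1 h4).2⟩
  have h3 := card_cut_sq A K x hK
  have h4 : (80000 : ℝ) * K ≤ x := by exact_mod_cast hx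
  have h5 : (0 : ℝ) ≤ x := Nat.cast_nonneg x
  have h6 : ((cut A x).card : ℝ) ≤ x / 200 := by
    apply le_of_sq_le_sq _ (by positivity)
    nlinarith
  linarith
where
  le_of_sq_le_sq {a b : ℝ} (h : a ^ 2 ≤ b ^ 2) (hb : 0 ≤ b) : a ≤ b := by
    nlinarith [sq_nonneg (a + b), sq_nonneg (a - b), abs_le_of_sq_le_sq' h hb]

theorem law (K x₀ : ℕ) (lam ε : ℝ) (hε : 0 < ε) : ∃ C : ℝ, ∀ A : Set ℕ, (∀ n, r A n ≤ K) →
    (∀ x : ℕ, x₀ ≤ x → 3 / 5 * (x : ℝ) ≤ ∑ n ∈ Icc 1 x, (r A n : ℝ)) →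
    ∀ N : ℕ, 1 ≤ N →
    -(ε * Real.log N + C) ≤
      ∑ n ∈ Icc 1 N, (((r A n : ℝ) - lam) ^ 2 - 1369 / 1260 * (r A n : ℝ)) / n := by
  classical
  obtain ⟨C, hC⟩ := law_fin K (max x₀ (80000 * K)) lam ε hε
  obtain ⟨C1, hC1⟩ := Pool.Agent.W55.ET.main K
  set Q : ℝ := (K + |lam|) ^ 2 + 2 * K with hQ
  have hQ0 : 0 ≤ Q := by positivity
  refine ⟨C + 2 * ε + Q * C1 + Q, ?_⟩
  intro A hK hm N hN
  set B := cut A N with hB
  have hBsub : B ⊆ Icc 1 N := fun a ha => mem_Icc.2 (mem_cut.1 ha).1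
  have hrepK : ∀ n, rep B n ≤ K := fun n => (rep_le A N n).trans (hK n)
  have h1 := hC B N hBsub hrepK (fun x hx hxN => mean_cut A K N x hK
    ((le_max_right _ _).trans hx) hxN (hm x ((le_max_left _ _).trans hx)))
  have h0 : 0 ∉ B := fun h => by
    have := (mem_cut.mp h).1.1
    omega
  have hSB : ∑ a ∈ B, 1 / (a : ℝ) ≤ C1 := hC1 B h0 hrepK
  -- harmonic sum
  have hN0 : (0 : ℝ) < N := by exact_mod_cast hN
  have hharm : ∑ n ∈ Icc 1 (2 * N), 1 / (n : ℝ) ≤ Real.log N + 2 := by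
    have h15 := harmonic_le_one_add_log (2 * N)
    have h16 : ((harmonic (2 * N) : ℚ) : ℝ) = ∑ n ∈ Icc 1 (2 * N), 1 / (n : ℝ) := by
      rw [harmonic_eq_sum_Icc]
      push_cast
      refine sum_congr rfl fun n _ => ?_
      rw [one_div]
    rw [h16] at h15
    push_cast at h15
    rw [Real.log_mul (by norm_num) hN0.ne'] at h15
    have := Real.log_two_lt_d9
    linarith
  -- the function F
  set F : ℝ → ℝ := fun t => (t - lam) ^ 2 - 1369 / 1260 * t with hF
  have hFle : ∀ t : ℝ, 0 ≤ t → t ≤ K → F t ≤ (K + |lam|) ^ 2 := by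
    intro t ht htK
    have h3 : |t - lam| ≤ K + |lam| := by
      refine (abs_sub _ _).trans ?_
      rw [abs_of_nonneg ht]
      linarith
    have h4 : (t - lam) ^ 2 ≤ (K + |lam|) ^ 2 := by
      rw [← sq_abs (t - lam)]
      exact pow_le_pow_left₀ (abs_nonneg _) h3 2
    simp only [hF]
    linarith
  have hFge : ∀ t : ℝ, 0 ≤ t → t ≤ K → -(2 * K : ℝ) ≤ F t := by
    intro t ht htK
    simp only [hF]
    nlinarith [sq_nonneg (t - lam)]
  have hsplit : ∑ n ∈ Icc 1 (2 * N), F (rep B n) / n =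
      ∑ n ∈ Icc 1 N, F (rep B n) / n + ∑ n ∈ Ioc N (2 * N), F (rep B n) / n := by
    rw [← sum_union]
    · congr 1
      ext n
      simp only [mem_union, mem_Icc, mem_Ioc]
      omega
    · rw [disjoint_left]
      intro n h2 h3
      have := (mem_Icc.1 h2).2
      have := (mem_Ioc.1 h3).1
      omega
  have hcast : ∀ n, (0 : ℝ) ≤ (rep B n : ℝ) ∧ (rep B n : ℝ) ≤ K := fun n =>
    ⟨by positivity, by exact_mod_cast hrepK n⟩
  have hcastr : ∀ n, (0 : ℝ) ≤ (r A n : ℝ) ∧ (r A n : ℝ) ≤ K := fun n =>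
    ⟨by positivity, by exact_mod_cast hK n⟩
  have h2 : ∑ n ∈ Ioc N (2 * N), F (rep B n) / n ≤ Q := by
    calc ∑ n ∈ Ioc N (2 * N), F (rep B n) / n
        ≤ ∑ _n ∈ Ioc N (2 * N), Q / (N : ℝ) := by
          refine sum_le_sum fun n hn => ?_
          have h3 : (N : ℝ) ≤ n := by exact_mod_cast (mem_Ioc.mp hn).1.le
          have h4 := hFle _ (hcast n).1 (hcast n).2
          have h5 : F (rep B n) ≤ Q := by rw [hQ]; linarith [(Nat.cast_nonneg K : (0 : ℝ) ≤ K)]
          calc F (rep B n) / n ≤ Q / n := div_le_div_of_nonneg_right h5 (by linarith)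
            _ ≤ Q / N := div_le_div_of_nonneg_left hQ0 hN0 h3
      _ = Q := by
          rw [sum_const, Nat.card_Ioc, nsmul_eq_mul]
          have : 2 * N - N = N := by omega
          rw [this]
          field_simp
  have h3 : ∑ n ∈ Icc 1 N, F (rep B n) / n ≤ ∑ n ∈ Icc 1 N, F (r A n) / n + Q * C1 := by
    have h4 : ∑ n ∈ Icc 1 N, F (rep B n) / n ≤
        ∑ n ∈ Icc 1 N, (F (r A n) / n + if n ∈ B then Q / (n : ℝ) else 0) := by
      refine sum_le_sum fun n hn => ?_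
      obtain ⟨hn1, hnN⟩ := mem_Icc.1 hn
      have hn0 : (0 : ℝ) < n := by exact_mod_cast hn1
      by_cases hnB : n ∈ B
      · rw [if_pos hnB]
        have h5 := hFle _ (hcast n).1 (hcast n).2
        have h6 := hFge _ (hcastr n).1 (hcastr n).2
        rw [← add_div]
        refine div_le_div_of_nonneg_right ?_ hn0.le
        rw [hQ]
        linarith
      · rw [if_neg hnB, add_zero]
        have hnA : n ∉ A := fun h => hnB (mem_cut.mpr ⟨⟨hn1, hnN⟩, h⟩)
        have : rep B n = r A n := rep_eq_r A N n hnN hnA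
        rw [this]
    refine h4.trans ?_
    rw [sum_add_distrib]
    have h5 : ∑ n ∈ Icc 1 N, (if n ∈ B then Q / (n : ℝ) else 0) ≤ Q * C1 := by
      rw [← sum_filter]
      calc ∑ n ∈ (Icc 1 N).filter (fun n => n ∈ B), Q / (n : ℝ)
          ≤ ∑ n ∈ B, Q / (n : ℝ) :=
            sum_le_sum_of_subset_of_nonneg (fun n hn => (mem_filter.1 hn).2)
              fun _ _ _ => by positivity
        _ = Q * ∑ n ∈ B, 1 / (n : ℝ) := by
            rw [mul_sum]
            exact sum_congr rfl fun _ _ => by ring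
        _ ≤ Q * C1 := mul_le_mul_of_nonneg_left hSB hQ0
    linarith
  have h4 : ∑ n ∈ Icc 1 (2 * N), F (rep B n) / n =
      ∑ n ∈ Icc 1 (2 * N), ((rep B n : ℝ) - lam) ^ 2 / n -
        1369 / 1260 * ∑ n ∈ Icc 1 (2 * N), (rep B n : ℝ) / n := by
    rw [mul_sum, ← sum_sub_distrib]
    refine sum_congr rfl fun n _ => ?_
    simp only [hF]
    ring
  have h5 := mul_le_mul_of_nonneg_left hharm hε.le
  have h6 : ∑ n ∈ Icc 1 N, (((r A n : ℝ) - lam) ^ 2 - 1369 / 1260 * (r A n : ℝ)) / n =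
      ∑ n ∈ Icc 1 N, F (r A n) / n := rfl
  rw [h6]
  linarith

end Pool.Agent.TH854.ET
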