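import Pool.Agent.TH854.ET.P3

/-!
# Consequences of the variance law: intervals and densities
-/

set_option autoImplicit false

open Finset

namespace Pool.Agent.TH854.ET

open Pool.Agent.W247.ET Pool.Agent.W962.ET

theorem r_le_succ (A : Set ℕ) (n : ℕ) : r A n ≤ n + 1 := by
  classical
  rw [r_eq]
  unfold rf
  refine (card_filter_le _ _).trans ?_
  rw [Nat.card_antidiagonal]

theorem r_even (A : Set ℕ) (n : ℕ) (h : ∀ a ∈ A, n ≠ 2 * a) : Even (r A n) := by
  classical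
  rw [r_eq, ← ZMod.natCast_eq_zero_iff_even, card_eq_sum_ones, Nat.cast_sum, Nat.cast_one]
  refine Finset.sum_involution (fun p _ => p.swap) ?_ ?_ ?_ ?_
  · intro p _
    decide
  · intro p hp _ he
    unfold rf at hp
    rw [mem_filter, HasAntidiagonal.mem_antidiagonal] at hp
    obtain ⟨h3, h1, h2⟩ := hp
    have h4 : p.2 = p.1 := congrArg Prod.fst he
    exact h p.1 h1 (by omega)
  · intro p hp
    unfold rf at hp ⊢
    rw [mem_filter, HasAntidiagonal.mem_antidiagonal] at hp ⊢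
    obtain ⟨h3, h1, h2⟩ := hp
    refine ⟨?_, h2, h1⟩
    show p.2 + p.1 = n
    omega
  · intro p _
    exact Prod.swap_swap p

/-- comparison outside a finite set and the doubles of the elements of `A` -/
theorem reduce (K n₁ : ℕ) (Q : ℝ) (hQ : 0 ≤ Q) : ∃ C : ℝ, 0 ≤ C ∧ ∀ A : Set ℕ, (∀ n, r A n ≤ K) →
    ∀ F G : ℕ → ℝ, (∀ n, F n ≤ Q) → (∀ n, -Q ≤ G n) →
    (∀ n ≥ n₁, (∀ a ∈ A, n ≠ 2 * a) → F n ≤ G n) →
    ∀ N : ℕ, ∑ n ∈ Icc 1 N, F n / n ≤ ∑ n ∈ Icc 1 N, G n / n + C := by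
  classical
  obtain ⟨C1, hC1⟩ := Pool.Agent.W55.ET.main K
  have hC10 : 0 ≤ C1 := by
    have := hC1 ∅ (notMem_empty _) (fun n => by simp [rep])
    simpa using this
  refine ⟨2 * Q * (n₁ + C1), by positivity, ?_⟩
  intro A hK F G hF hG hFG N
  set B := cut A N with hB
  have hrepK : ∀ n, rep B n ≤ K := fun n => (rep_le A N n).trans (hK n)
  have h0 : 0 ∉ B := fun h => by
    have := (mem_cut.mp h).1.1
    omega
  have hSB : ∑ a ∈ B, 1 / (a : ℝ) ≤ C1 := hC1 B h0 hrepK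
  set I2 : Finset ℕ := B.image (fun a => 2 * a) with hI2
  have key : ∀ n ∈ Icc 1 N, F n / n ≤ G n / n +
      ((if n ∈ Icc 1 n₁ then 2 * Q / (n : ℝ) else 0) + (if n ∈ I2 then 2 * Q / (n : ℝ) else 0)) := by
    intro n hn
    obtain ⟨hn1, hnN⟩ := mem_Icc.1 hn
    have hn0 : (0 : ℝ) < n := by exact_mod_cast hn1
    have hbd : F n / n ≤ G n / n + 2 * Q / n := by
      rw [← add_div]
      exact div_le_div_of_nonneg_right (by linarith [hF n, hG n]) hn0.le
    have hp : 0 ≤ 2 * Q / (n : ℝ) := by positivity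
    by_cases c1 : n ∈ Icc 1 n₁
    · rw [if_pos c1]
      split_ifs
      · linarith
      · linarith
    · by_cases c2 : n ∈ I2
      · rw [if_pos c2]
        split_ifs <;> linarith
      · rw [if_neg c1, if_neg c2, add_zero, add_zero]
        refine div_le_div_of_nonneg_right (hFG n ?_ ?_) hn0.le
        · by_contra h
          exact c1 (mem_Icc.2 ⟨hn1, by omega⟩)
        · intro a ha he
          apply c2
          exact mem_image.2 ⟨a, mem_cut.2 ⟨⟨by omega, by omega⟩, ha⟩, he.symm⟩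
  refine (sum_le_sum key).trans ?_
  rw [sum_add_distrib, sum_add_distrib]
  have s1 : ∑ n ∈ Icc 1 N, (if n ∈ Icc 1 n₁ then 2 * Q / (n : ℝ) else 0) ≤ 2 * Q * n₁ := by
    rw [← sum_filter]
    calc ∑ n ∈ (Icc 1 N).filter (fun n => n ∈ Icc 1 n₁), 2 * Q / (n : ℝ)
        ≤ ∑ n ∈ Icc 1 n₁, 2 * Q / (n : ℝ) :=
          sum_le_sum_of_subset_of_nonneg (fun n hn => (mem_filter.mp hn).2)
            fun _ _ _ => by positivity
      _ ≤ ∑ _n ∈ Icc 1 n₁, 2 * Q := by
          refine sum_le_sum fun n hn => ?_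
          have : (1 : ℝ) ≤ n := by exact_mod_cast (mem_Icc.1 hn).1
          exact div_le_self (by positivity) this
      _ = 2 * Q * n₁ := by
          rw [sum_const, Nat.card_Icc, nsmul_eq_mul, Nat.add_sub_cancel]
          ring
  have s2 : ∑ n ∈ Icc 1 N, (if n ∈ I2 then 2 * Q / (n : ℝ) else 0) ≤ 2 * Q * C1 := by
    rw [← sum_filter]
    calc ∑ n ∈ (Icc 1 N).filter (fun n => n ∈ I2), 2 * Q / (n : ℝ)
        ≤ ∑ n ∈ I2, 2 * Q / (n : ℝ) :=
          sum_le_sum_of_subset_of_nonneg (fun n hn => (mem_filter.mp hn).2)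
            fun _ _ _ => by positivity
      _ = ∑ a ∈ B, 2 * Q / ((2 * a : ℕ) : ℝ) := by
          rw [hI2]
          exact sum_image fun a _ b _ h => by simpa using h
      _ ≤ ∑ a ∈ B, 2 * Q * (1 / (a : ℝ)) := by
          refine sum_le_sum fun a ha => ?_
          have h1 := (mem_cut.mp ha).1.1
          have h2 : (0 : ℝ) < a := by exact_mod_cast h1
          rw [mul_one_div]
          apply div_le_div_of_nonneg_left (by positivity) h2
          push_cast
          linarith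
      _ = 2 * Q * ∑ a ∈ B, 1 / (a : ℝ) := by rw [mul_sum]
      _ ≤ 2 * Q * C1 := mul_le_mul_of_nonneg_left hSB (by positivity)
  linarith

/-- the harmonic sum -/
theorem harm (N : ℕ) (hN : 1 ≤ N) : Real.log N ≤ ∑ n ∈ Icc 1 N, 1 / (n : ℝ) ∧
    ∑ n ∈ Icc 1 N, 1 / (n : ℝ) ≤ 1 + Real.log N := by
  have h16 : ((harmonic N : ℚ) : ℝ) = ∑ n ∈ Icc 1 N, 1 / (n : ℝ) := by
    rw [harmonic_eq_sum_Icc]
    push_cast
    refine sum_congr rfl fun n _ => ?_
    rw [one_div]
  constructor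
  · rw [← h16]
    refine le_trans ?_ (log_add_one_le_harmonic N)
    apply Real.log_le_log
    · exact_mod_cast hN
    · push_cast
      linarith
  · rw [← h16]
    exact harmonic_le_one_add_log N

/-- bound for the function `F` -/
theorem F_le {K : ℕ} {lam : ℝ} {t : ℕ} (ht : t ≤ K) :
    ((t : ℝ) - lam) ^ 2 - 1369 / 1260 * (t : ℝ) ≤ (K + |lam|) ^ 2 := by
  have ht0 : (0 : ℝ) ≤ t := Nat.cast_nonneg t
  have htK : (t : ℝ) ≤ K := by exact_mod_cast ht
  have h3 : |(t : ℝ) - lam| ≤ K + |lam| := by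
    refine (abs_sub _ _).trans ?_
    rw [abs_of_nonneg ht0]
    linarith
  have h4 : ((t : ℝ) - lam) ^ 2 ≤ (K + |lam|) ^ 2 := by
    rw [← sq_abs ((t : ℝ) - lam)]
    exact pow_le_pow_left₀ (abs_nonneg _) h3 2
  linarith

open Classical in
/-- intervals: a positive logarithmic proportion of the values is above `2 K` -/
theorem interval (l K : ℕ) (hl : 1 ≤ l) (hc : 2 * (√(K : ℝ) - √(l : ℝ)) ^ 2 < 1369 / 1260)
    (A : Set ℕ) (h0 : ∃ n₀, ∀ n ≥ n₀, 2 * l - 1 ≤ r A n) (hM : ∃ M, ∀ n, r A n ≤ M) :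
    ∃ δ : ℝ, 0 < δ ∧ ∃ N₀ : ℕ, ∀ N ≥ N₀,
      δ * Real.log N ≤ ∑ n ∈ (Icc 1 N).filter (fun n => 2 * K + 2 ≤ r A n), 1 / (n : ℝ) := by
  obtain ⟨n₀, h0⟩ := h0
  obtain ⟨M, hM⟩ := hM
  have hl0 : (1 : ℝ) ≤ l := by exact_mod_cast hl
  set a := √(l : ℝ) with ha
  set b := √(K : ℝ) with hb
  have ha2 : a ^ 2 = l := Real.sq_sqrt (by linarith)
  have hb2 : b ^ 2 = K := Real.sq_sqrt (Nat.cast_nonneg K)
  have ha0 : 0 ≤ a := Real.sqrt_nonneg _
  have hb0 : 0 ≤ b := Real.sqrt_nonneg _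
  set lam : ℝ := 2 * a * b with hlam
  set κ : ℝ := 1369 / 1260 - 2 * (b - a) ^ 2 with hκ
  have hκ0 : 0 < κ := by rw [hκ]; linarith
  -- the mean
  have hmean : ∀ x : ℕ, 3 * n₀ ≤ x → 3 / 5 * (x : ℝ) ≤ ∑ n ∈ Icc 1 x, (r A n : ℝ) := by
    intro x hx
    have h1 : ∑ n ∈ Icc 1 x, (1 : ℝ) ≤ ∑ n ∈ Icc 1 x, (r A n : ℝ) + n₀ := by
      have h2 : ∑ n ∈ Icc 1 x, (1 : ℝ) ≤
          ∑ n ∈ Icc 1 x, ((r A n : ℝ) + if n ∈ Icc 1 n₀ then 1 else 0) := by
        refine sum_le_sum fun n hn => ?_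
        by_cases h3 : n ∈ Icc 1 n₀
        · rw [if_pos h3]
          have : (0 : ℝ) ≤ r A n := by positivity
          linarith
        · rw [if_neg h3, add_zero]
          have h4 : n₀ ≤ n := by
            by_contra h5
            exact h3 (mem_Icc.2 ⟨(mem_Icc.1 hn).1, by omega⟩)
          have h5 := h0 n h4
          have h6 : 1 ≤ r A n := by omega
          exact_mod_cast h6
      refine h2.trans ?_
      rw [sum_add_distrib]
      refine add_le_add_right ?_ _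
      rw [← sum_filter, sum_const, nsmul_eq_mul, mul_one]
      have h7 : (((Icc 1 x).filter (fun n => n ∈ Icc 1 n₀)).card : ℝ) ≤ (Icc 1 n₀).card := by
        exact_mod_cast card_le_card fun n hn => (mem_filter.1 hn).2
      refine h7.trans (le_of_eq ?_)
      rw [Nat.card_Icc, Nat.add_sub_cancel]
    rw [sum_const, nsmul_eq_mul, mul_one, Nat.card_Icc, Nat.add_sub_cancel] at h1
    have h2 : (3 : ℝ) * n₀ ≤ x := by exact_mod_cast hx
    linarith
  obtain ⟨C, hC⟩ := law M (3 * n₀) lam (l * κ) (by positivity)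
  have hC := hC A hM hmean
  set Q : ℝ := (M + |lam|) ^ 2 + 2 * l * κ with hQ
  have hQ0 : 0 ≤ Q := by positivity
  obtain ⟨C', hC'0, hC'⟩ := reduce M n₀ Q hQ0
  set G : ℕ → ℝ := fun n => -(2 * l * κ) + (if 2 * K + 2 ≤ r A n then 2 * Q else 0) with hG
  have h1 := hC' A hM (fun n => ((r A n : ℝ) - lam) ^ 2 - 1369 / 1260 * (r A n : ℝ)) G
    (fun n => by
      have := F_le (lam := lam) (hM n)
      have h2 : 0 ≤ 2 * (l : ℝ) * κ := by positivity
      rw [hQ]; linarith)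
    (fun n => by
      have h2 : (0 : ℝ) ≤ (if 2 * K + 2 ≤ r A n then 2 * Q else 0) := by
        split_ifs <;> positivity
      have h3 : 0 ≤ (M + |lam|) ^ 2 := by positivity
      simp only [hG]
      rw [hQ] at h2 ⊢
      linarith)
    (fun n hn hn2 => by
      simp only [hG]
      by_cases hK : 2 * K + 2 ≤ r A n
      · rw [if_pos hK]
        have := F_le (lam := lam) (hM n)
        have h2 : 0 ≤ 2 * (l : ℝ) * κ := by positivity
        have h3 : 0 ≤ (M + |lam|) ^ 2 := by positivity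
        rw [hQ]; linarith
      · rw [if_neg hK, add_zero]
        obtain ⟨t, ht⟩ := r_even A n hn2
        have h2 := h0 n hn
        have h3 : l ≤ t ∧ t ≤ K := by omega
        have h4 : (l : ℝ) ≤ t := by exact_mod_cast h3.1
        have h5 : (t : ℝ) ≤ K := by exact_mod_cast h3.2
        have h6 : (r A n : ℝ) = 2 * t := by rw [ht]; push_cast; ring
        rw [h6]
        -- (2t - lam)^2 - c 2t ≤ -κ 2t ≤ -2 l κ
        have h7 : ((t : ℝ) - a ^ 2) * (t - b ^ 2) ≤ 0 := by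
          rw [ha2, hb2]
          exact mul_nonpos_of_nonneg_of_nonpos (by linarith) (by linarith)
        have h8 : (2 * (t : ℝ) - lam) ^ 2 - 1369 / 1260 * (2 * t) =
            4 * (((t : ℝ) - a ^ 2) * (t - b ^ 2)) - κ * (2 * t) := by
          rw [hlam, hκ]; ring
        rw [h8]
        have h9 : κ * (2 * l) ≤ κ * (2 * t) := mul_le_mul_of_nonneg_left (by linarith) hκ0.le
        linarith)
  -- sums
  set S : ℕ → ℝ := fun N => ∑ n ∈ (Icc 1 N).filter (fun n => 2 * K + 2 ≤ r A n), 1 / (n : ℝ)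
    with hS
  have h2 : ∀ N : ℕ, ∑ n ∈ Icc 1 N, G n / n = -(2 * l * κ) * ∑ n ∈ Icc 1 N, 1 / (n : ℝ) +
      2 * Q * S N := by
    intro N
    simp only [hG, hS]
    rw [sum_filter, mul_sum, mul_sum, ← sum_add_distrib]
    refine sum_congr rfl fun n _ => ?_
    split_ifs <;> ring
  have hQ1 : 0 < Q := by
    rw [hQ]
    have : 0 < 2 * (l : ℝ) * κ := by positivity
    positivity
  have h3 : ∀ N : ℕ, 1 ≤ N → l * κ * Real.log N - (C + C') ≤ 2 * Q * S N := by
    intro N hN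
    have h4 := hC N hN
    have h5 := h1 N
    rw [h2 N] at h5
    have h6 := mul_le_mul_of_nonneg_left (harm N hN).1 (by positivity : 0 ≤ 2 * (l : ℝ) * κ)
    linarith
  refine ⟨l * κ / (4 * Q), by positivity, ?_⟩
  have hlim : Filter.Tendsto (fun N : ℕ => l * κ / 2 * Real.log N) Filter.atTop Filter.atTop :=
    (Real.tendsto_log_atTop.comp tendsto_natCast_atTop_atTop).const_mul_atTop (by positivity)
  obtain ⟨N₀, hN₀⟩ := Filter.eventually_atTop.1
    ((hlim.eventually_ge_atTop (C + C')).and (Filter.eventually_ge_atTop 1))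
  refine ⟨N₀, fun N hN => ?_⟩
  obtain ⟨h4, h5⟩ := hN₀ N hN
  have h6 := h3 N h5
  have h7 : l * κ / 2 * Real.log N ≤ 2 * Q * S N := by linarith
  have h8 : l * κ / (4 * Q) * Real.log N = l * κ / 2 * Real.log N / (2 * Q) := by
    field_simp
    ring
  rw [h8, div_le_iff₀ (by positivity)]
  linarith

theorem interval_inf (l K : ℕ) (hl : 1 ≤ l) (hc : 2 * (√(K : ℝ) - √(l : ℝ)) ^ 2 < 1369 / 1260)
    (A : Set ℕ) (h0 : ∃ n₀, ∀ n ≥ n₀, 2 * l - 1 ≤ r A n) :
    ∀ n₁, ∃ n ≥ n₁, 2 * K + 2 ≤ r A n := by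
  classical
  intro n₁
  by_contra hcon
  push Not at hcon
  have hM : ∃ M, ∀ n, r A n ≤ M := by
    refine ⟨n₁ + 2 * K + 2, fun n => ?_⟩
    rcases lt_or_ge n n₁ with h | h
    · have := r_le_succ A n; omega
    · have := hcon n h; omega
  obtain ⟨δ, hδ, N₀, hN₀⟩ := interval l K hl hc A h0 hM
  have hb : ∀ N : ℕ, ∑ n ∈ (Icc 1 N).filter (fun n => 2 * K + 2 ≤ r A n), 1 / (n : ℝ) ≤ n₁ := by
    intro N
    calc ∑ n ∈ (Icc 1 N).filter (fun n => 2 * K + 2 ≤ r A n), 1 / (n : ℝ)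
        ≤ ∑ n ∈ Icc 1 n₁, 1 / (n : ℝ) := by
          refine sum_le_sum_of_subset_of_nonneg (fun n hn => ?_) fun _ _ _ => by positivity
          obtain ⟨h1, h2⟩ := mem_filter.1 hn
          refine mem_Icc.2 ⟨(mem_Icc.1 h1).1, ?_⟩
          by_contra h3
          have := hcon n (by omega)
          omega
      _ ≤ ∑ n ∈ Icc 1 n₁, (1 : ℝ) := by
          refine sum_le_sum fun n hn => ?_
          have : (1 : ℝ) ≤ n := by exact_mod_cast (mem_Icc.1 hn).1
          rw [div_le_one (by linarith)]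
          exact this
      _ = n₁ := by simp
  have hlim : Filter.Tendsto (fun N : ℕ => δ * Real.log N) Filter.atTop Filter.atTop :=
    (Real.tendsto_log_atTop.comp tendsto_natCast_atTop_atTop).const_mul_atTop hδ
  obtain ⟨N, hN⟩ := ((hlim.eventually_gt_atTop (n₁ : ℝ)).and
    (Filter.eventually_ge_atTop N₀)).exists
  have h1 := hN₀ N hN.2
  have h2 := hb N
  have h3 := hN.1
  linarith

end Pool.Agent.TH854.ET
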