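import Pool.Agent.TH854.ET.P4

/-!
# Consequences of the variance law: the density of the small values
-/

set_option autoImplicit false

open Finset

namespace Pool.Agent.TH854.ET

open Pool.Agent.W247.ET Pool.Agent.W962.ET

open Classical in
theorem density (l g : ℕ) (hl : 1 ≤ l) (hlg : l ≤ g) (δ : ℝ) (hδ0 : 0 ≤ δ)
    (hδ1 : δ ≤ 2 / 5)
    (hδ : 4 * l * g * δ < 2 * l * (1369 / 1260) - ((g : ℝ) - l - 1369 / 2520) ^ 2)
    (A : Set ℕ) (h1 : ∃ n₀, ∀ n ≥ n₀, r A n ≤ 2 * g + 1) :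
    ∀ N₀ : ℕ, ∃ N ≥ N₀, δ * N < (((Icc 1 N).filter (fun n => r A n ≤ 2 * l - 2)).card : ℝ) := by
  obtain ⟨n₀, h1⟩ := h1
  intro N₀
  by_contra hcon
  push Not at hcon
  set M := n₀ + 2 * g + 1 with hMdef
  have hM : ∀ n, r A n ≤ M := by
    intro n
    rcases lt_or_ge n n₀ with h | h
    · have := r_le_succ A n; omega
    · have := h1 n h; omega
  set z : ℕ → ℝ := fun n => if r A n ≤ 2 * l - 2 then 1 else 0 with hz
  have hz01 : ∀ n, 0 ≤ z n ∧ z n ≤ 1 := fun n => by
    simp only [hz]; split_ifs <;> norm_num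
  have hcard : ∀ N : ℕ, ∑ n ∈ Icc 1 N, z n =
      (((Icc 1 N).filter (fun n => r A n ≤ 2 * l - 2)).card : ℝ) := by
    intro N
    simp only [hz]
    rw [← sum_filter, sum_const, nsmul_eq_mul, mul_one]
  -- the mean
  have hmean : ∀ x : ℕ, N₀ ≤ x → 3 / 5 * (x : ℝ) ≤ ∑ n ∈ Icc 1 x, (r A n : ℝ) := by
    intro x hx
    have h2 : ∑ n ∈ Icc 1 x, ((1 : ℝ) - z n) ≤ ∑ n ∈ Icc 1 x, (r A n : ℝ) := by
      refine sum_le_sum fun n _ => ?_
      simp only [hz]
      by_cases h3 : r A n ≤ 2 * l - 2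
      · rw [if_pos h3]; simp
      · rw [if_neg h3]
        have : 1 ≤ r A n := by omega
        have : (1 : ℝ) ≤ r A n := by exact_mod_cast this
        linarith
    rw [sum_sub_distrib, sum_const, nsmul_eq_mul, mul_one, Nat.card_Icc, Nat.add_sub_cancel,
      hcard] at h2
    have h3 := hcon x hx
    have h4 : δ * x ≤ 2 / 5 * x := mul_le_mul_of_nonneg_right hδ1 (Nat.cast_nonneg x)
    linarith
  have hl0 : (1 : ℝ) ≤ l := by exact_mod_cast hl
  have hlg0 : (l : ℝ) ≤ g := by exact_mod_cast hlg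
  set lam : ℝ := g + l - 1369 / 2520 with hlam
  set q : ℝ := 2 * l * (1369 / 1260) - ((g : ℝ) - l - 1369 / 2520) ^ 2 with hq
  have hlq : lam ^ 2 = 4 * l * g - q := by rw [hlam, hq]; ring
  have hq0 : 0 < q := lt_of_le_of_lt (by positivity) hδ
  obtain ⟨C, hC⟩ := law M N₀ lam ((q - 4 * l * g * δ) / 2) (by linarith)
  have hC := hC A hM hmean
  set Q : ℝ := (M + |lam|) ^ 2 + q with hQ
  have hQ0 : 0 ≤ Q := by positivity
  obtain ⟨C', hC'0, hC'⟩ := reduce M n₀ Q hQ0
  set G : ℕ → ℝ := fun n => -q + 4 * l * g * z n with hG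
  have h2 := hC' A hM (fun n => ((r A n : ℝ) - lam) ^ 2 - 1369 / 1260 * (r A n : ℝ)) G
    (fun n => by
      have := F_le (lam := lam) (hM n)
      rw [hQ]; linarith)
    (fun n => by
      have h3 : 0 ≤ (M + |lam|) ^ 2 := by positivity
      have h4 : 0 ≤ 4 * l * g * z n := mul_nonneg (by positivity) (hz01 n).1
      simp only [hG]
      rw [hQ]
      linarith)
    (fun n hn hn2 => by
      obtain ⟨t, ht⟩ := r_even A n hn2
      have h3 := h1 n hn
      have h5 : t ≤ g := by omega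
      have h5' : (t : ℝ) ≤ g := by exact_mod_cast h5
      have h6 : (r A n : ℝ) = 2 * t := by rw [ht]; push_cast; ring
      simp only [hG, hz]
      by_cases h7 : r A n ≤ 2 * l - 2
      · rw [if_pos h7, h6]
        have h8 : t + 1 ≤ l := by omega
        have h9 : (t : ℝ) + 1 ≤ l := by exact_mod_cast h8
        have ht0 : (0 : ℝ) ≤ t := Nat.cast_nonneg t
        have h10 : (2 * (t : ℝ) - lam) ^ 2 - 1369 / 1260 * (2 * t) =
            lam ^ 2 + 4 * (t * (t - g - l)) := by
          rw [hlam]; ring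
        rw [h10, hlq]
        have h11 : (t : ℝ) * (t - g - l) ≤ 0 :=
          mul_nonpos_of_nonneg_of_nonpos ht0 (by linarith)
        linarith
      · rw [if_neg h7, h6]
        have h8 : l ≤ t := by omega
        have h9 : (l : ℝ) ≤ t := by exact_mod_cast h8
        have h10 : (2 * (t : ℝ) - lam) ^ 2 - 1369 / 1260 * (2 * t) =
            4 * (((t : ℝ) - l) * (t - g)) - q := by
          rw [hq, hlam]; ring
        rw [h10]
        have h11 : ((t : ℝ) - l) * (t - g) ≤ 0 :=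
          mul_nonpos_of_nonneg_of_nonpos (by linarith) (by linarith)
        linarith)
  -- logarithmic density of the zeros
  have hZ : ∀ N : ℕ, 1 ≤ N → ∑ n ∈ Icc 1 N, z n / n ≤
      δ * ∑ n ∈ Icc 1 N, 1 / (n : ℝ) + N₀ := by
    intro N hN
    have h3 := abel_low (fun n => δ - z n) (fun n => if n = 0 then 1 else 1 / (n : ℝ)) N₀
      (fun n => by
        rcases Nat.eq_zero_or_pos n with h | h
        · subst h; norm_num
        · rw [if_neg (by omega), if_neg (by omega)]
          have : (0 : ℝ) < n := by exact_mod_cast h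
          apply one_div_le_one_div_of_le this
          push_cast
          linarith)
      (fun n => by split_ifs <;> positivity) N
      (fun n hn1 _ => by
        rw [sum_sub_distrib, sum_const, nsmul_eq_mul, Nat.card_Icc, Nat.add_sub_cancel]
        by_cases h4 : N₀ ≤ n
        · have h5 := hcon n h4
          rw [hcard]
          have : (0 : ℝ) ≤ N₀ := Nat.cast_nonneg _
          linarith
        · have h5 : ∑ k ∈ Icc 1 n, z k ≤ n := by
            calc ∑ k ∈ Icc 1 n, z k ≤ ∑ k ∈ Icc 1 n, (1 : ℝ) :=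
                  sum_le_sum fun k _ => (hz01 k).2
              _ = n := by simp
          have h6 : (n : ℝ) ≤ N₀ := by exact_mod_cast (by omega : n ≤ N₀)
          have h7 : 0 ≤ (n : ℝ) * δ := by positivity
          linarith) hN
    have h4 : ∑ k ∈ Icc 1 N, (δ - z k) * (if k = 0 then 1 else 1 / (k : ℝ)) =
        δ * ∑ n ∈ Icc 1 N, 1 / (n : ℝ) - ∑ n ∈ Icc 1 N, z n / n := by
      rw [mul_sum, ← sum_sub_distrib]
      refine sum_congr rfl fun n hn => ?_
      rw [if_neg (by have := (mem_Icc.1 hn).1; omega)]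
      ring
    rw [h4] at h3
    norm_num at h3
    norm_num
    linarith
  have h3 : ∀ N : ℕ, ∑ n ∈ Icc 1 N, G n / n = -q * ∑ n ∈ Icc 1 N, 1 / (n : ℝ) +
      4 * l * g * ∑ n ∈ Icc 1 N, z n / n := by
    intro N
    simp only [hG]
    rw [mul_sum, mul_sum, ← sum_add_distrib]
    refine sum_congr rfl fun n _ => ?_
    ring
  have h4 : ∀ N : ℕ, 1 ≤ N →
      (q - 4 * l * g * δ) / 2 * Real.log N ≤ C + C' + 4 * l * g * N₀ := by
    intro N hN
    have h5 := hC N hN
    have h6 := h2 N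
    rw [h3 N] at h6
    have h7 := mul_le_mul_of_nonneg_left (hZ N hN) (by positivity : 0 ≤ 4 * (l : ℝ) * g)
    have h8 := mul_le_mul_of_nonneg_left (harm N hN).1 (by linarith : 0 ≤ q - 4 * l * g * δ)
    have h9 : 4 * (l : ℝ) * g * (δ * ∑ n ∈ Icc 1 N, 1 / (n : ℝ) + N₀) =
        4 * l * g * δ * ∑ n ∈ Icc 1 N, 1 / (n : ℝ) + 4 * l * g * N₀ := by ring
    rw [h9] at h7
    have h10 : (q - 4 * l * g * δ) * ∑ n ∈ Icc 1 N, 1 / (n : ℝ) =
        q * ∑ n ∈ Icc 1 N, 1 / (n : ℝ) - 4 * l * g * δ * ∑ n ∈ Icc 1 N, 1 / (n : ℝ) := by ring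
    rw [h10] at h8
    linarith
  have hlim : Filter.Tendsto (fun N : ℕ => (q - 4 * l * g * δ) / 2 * Real.log N) Filter.atTop
      Filter.atTop :=
    (Real.tendsto_log_atTop.comp tendsto_natCast_atTop_atTop).const_mul_atTop (by linarith)
  obtain ⟨N, hN⟩ := ((hlim.eventually_gt_atTop (C + C' + 4 * l * g * N₀)).and
    (Filter.eventually_ge_atTop 1)).exists
  have := h4 N hN.2
  linarith [hN.1]

end Pool.Agent.TH854.ET
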