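import Pool.Agent.TH854.ET.P4

/-!
# Consequences of the variance law: the constant in the condition `a_n ≤ C n ^ 2`
-/

set_option autoImplicit false

open Finset

namespace Pool.Agent.TH854.ET

open Pool.Agent.W247.ET Pool.Agent.W962.ET

lemma arctan_step {x y : ℝ} (hx : 0 ≤ x) (hxy : x ≤ y) :
    Real.arctan y - Real.arctan x ≤ (y - x) / (1 + x ^ 2) := by
  have hd : ∀ t : ℝ, HasDerivAt (fun t : ℝ => (t - x) / (1 + x ^ 2) - Real.arctan t)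
      (1 / (1 + x ^ 2) - 1 / (1 + t ^ 2)) t := fun t =>
    (((hasDerivAt_id t).sub_const x).div_const _).sub (Real.hasDerivAt_arctan t)
  have hmono : MonotoneOn (fun t : ℝ => (t - x) / (1 + x ^ 2) - Real.arctan t) (Set.Ici x) := by
    apply monotoneOn_of_deriv_nonneg (convex_Ici x)
    · exact fun t _ => (hd t).continuousAt.continuousWithinAt
    · exact fun t _ => (hd t).differentiableAt.differentiableWithinAt
    · intro t ht
      rw [interior_Ici] at ht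
      have ht' : x < t := ht
      rw [(hd t).deriv]
      have : 1 / (1 + t ^ 2) ≤ 1 / (1 + x ^ 2) := by
        apply one_div_le_one_div_of_le (by positivity)
        nlinarith
      linarith
  have h := hmono (Set.mem_Ici.2 le_rfl) (Set.mem_Ici.2 hxy) hxy
  simp only [sub_self, zero_div, zero_sub] at h
  linarith

lemma inner_sum (n : ℕ) (hn : 1 ≤ n) (M : ℕ) :
    1 / (n : ℝ) * (Real.arctan ((M + 1) / n) - Real.arctan (1 / n)) ≤
      ∑ m ∈ Icc 1 M, 1 / ((n : ℝ) ^ 2 + (m : ℝ) ^ 2) := by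
  have hn0 : (0 : ℝ) < n := by exact_mod_cast hn
  induction M with
  | zero => simp
  | succ M ih =>
    rw [Finset.sum_Icc_succ_top (by omega)]
    have h1 := arctan_step (x := ((M + 1 : ℕ) : ℝ) / n) (y := (((M + 1 : ℕ) : ℝ) + 1) / n)
      (by positivity) (by
        apply div_le_div_of_nonneg_right _ hn0.le
        linarith)
    have h2 : ((((M + 1 : ℕ) : ℝ) + 1) / n - ((M + 1 : ℕ) : ℝ) / n) /
        (1 + (((M + 1 : ℕ) : ℝ) / n) ^ 2) = n / ((n : ℝ) ^ 2 + ((M + 1 : ℕ) : ℝ) ^ 2) := by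
      field_simp
      ring
    rw [h2] at h1
    have h3 := mul_le_mul_of_nonneg_left h1 (by positivity : 0 ≤ 1 / (n : ℝ))
    have h4 : 1 / (n : ℝ) * (n / ((n : ℝ) ^ 2 + ((M + 1 : ℕ) : ℝ) ^ 2)) =
        1 / ((n : ℝ) ^ 2 + ((M + 1 : ℕ) : ℝ) ^ 2) := by
      field_simp
    rw [h4] at h3
    push_cast at h3 ih ⊢
    have h5 : 1 / (n : ℝ) * (Real.arctan (((M : ℝ) + 1 + 1) / n) - Real.arctan (1 / n)) =
        1 / (n : ℝ) * (Real.arctan (((M : ℝ) + 1) / n) - Real.arctan (1 / n)) +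
        1 / (n : ℝ) * (Real.arctan (((M : ℝ) + 1 + 1) / n) - Real.arctan (((M : ℝ) + 1) / n)) := by
      ring
    rw [h5]
    linarith

lemma arctan_le_self' {x : ℝ} (hx : 0 ≤ x) : Real.arctan x ≤ x := by
  have := arctan_step le_rfl hx
  simpa using this

lemma double_sum (M : ℕ) : Real.pi / 2 * ∑ n ∈ Icc 1 M, 1 / (n : ℝ) - 3 ≤
    ∑ n ∈ Icc 1 M, ∑ m ∈ Icc 1 M, 1 / ((n : ℝ) ^ 2 + (m : ℝ) ^ 2) := by
  have h1 : ∀ n ∈ Icc 1 M, Real.pi / 2 * (1 / (n : ℝ)) - 1 / ((M : ℝ) + 1) - 1 / (n : ℝ) ^ 2 ≤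
      ∑ m ∈ Icc 1 M, 1 / ((n : ℝ) ^ 2 + (m : ℝ) ^ 2) := by
    intro n hn
    have hn1 := (mem_Icc.1 hn).1
    have hn0 : (0 : ℝ) < n := by exact_mod_cast hn1
    refine le_trans ?_ (inner_sum n hn1 M)
    have h2 : Real.pi / 2 - n / ((M : ℝ) + 1) ≤ Real.arctan (((M : ℝ) + 1) / n) := by
      have h3 := Real.arctan_inv_of_pos (x := ((M : ℝ) + 1) / n) (by positivity)
      have h4 : (((M : ℝ) + 1) / n)⁻¹ = n / ((M : ℝ) + 1) := by
        rw [inv_div]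
      rw [h4] at h3
      have h5 := arctan_le_self' (x := (n : ℝ) / ((M : ℝ) + 1)) (by positivity)
      linarith
    have h3 := arctan_le_self' (x := 1 / (n : ℝ)) (by positivity)
    have h4 : 1 / (n : ℝ) * (Real.pi / 2 - n / ((M : ℝ) + 1) - 1 / n) ≤
        1 / (n : ℝ) * (Real.arctan (((M : ℝ) + 1) / n) - Real.arctan (1 / n)) :=
      mul_le_mul_of_nonneg_left (by linarith) (by positivity)
    refine le_trans (le_of_eq ?_) h4
    field_simp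
  refine le_trans ?_ (sum_le_sum h1)
  rw [sum_sub_distrib, sum_sub_distrib, ← mul_sum, sum_const, nsmul_eq_mul, Nat.card_Icc,
    Nat.add_sub_cancel]
  have h2 := Pool.Agent.W369.ET.sum_sq M
  have h3 : (M : ℝ) * (1 / ((M : ℝ) + 1)) ≤ 1 := by
    rw [mul_one_div, div_le_one (by positivity)]
    linarith
  have h4 : 0 ≤ 1 / (M : ℝ) := by positivity
  linarith

/-- a lower bound for the logarithmic mean -/
lemma s_low (A : Set ℕ) (hA : A.Infinite) (n₁ : ℕ) (hn₁ : 1 ≤ n₁) (C : ℝ) (hC : 0 < C)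
    (h : ∀ i ≥ n₁, (Nat.nth (fun a => a ∈ A) i : ℝ) ≤ C * ((i : ℝ) + 1) ^ 2) (N M : ℕ)
    (hM : C * (M : ℝ) ^ 2 ≤ N) :
    1 / C * (Real.pi / 2 * ∑ n ∈ Icc 1 M, 1 / (n : ℝ) - 3 - 4 * n₁) ≤
      ∑ n ∈ Icc 1 (2 * N), (rep (cut A N) n : ℝ) / n := by
  classical
  set a : ℕ → ℕ := fun i => Nat.nth (fun a => a ∈ A) i with ha
  have hmono : StrictMono a := Nat.nth_strictMono hA
  have hmem : ∀ i, a i ∈ A := fun i => Nat.nth_mem_of_infinite hA i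
  have hle : ∀ i, i ≤ a i := fun i => hmono.id_le i
  set B := cut A N with hB
  have hBsub : B ⊆ Icc 1 N := fun a ha => mem_Icc.2 (mem_cut.1 ha).1
  have h1 := sum_pairs B N hBsub (fun n => 1 / (n : ℝ))
  have h2 : ∑ n ∈ Icc 1 (2 * N), (rep B n : ℝ) / n =
      ∑ p ∈ B ×ˢ B, 1 / ((p.1 + p.2 : ℕ) : ℝ) := by
    rw [h1]
    exact sum_congr rfl fun _ _ => by ring
  rw [h2]
  set I := Ico n₁ M with hI
  have haB : ∀ i ∈ I, a i ∈ B := by
    intro i hi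
    obtain ⟨h3, h4⟩ := mem_Ico.1 hi
    refine mem_cut.2 ⟨⟨(by have := hle i; omega), ?_⟩, hmem i⟩
    have h5 := h i h3
    have h6 : ((i : ℝ) + 1) ^ 2 ≤ (M : ℝ) ^ 2 := by
      apply pow_le_pow_left₀ (by positivity)
      exact_mod_cast h4
    have h7 : (a i : ℝ) ≤ N := by
      calc (a i : ℝ) ≤ C * ((i : ℝ) + 1) ^ 2 := h5
        _ ≤ C * (M : ℝ) ^ 2 := mul_le_mul_of_nonneg_left h6 hC.le
        _ ≤ N := hM
    exact_mod_cast h7
  have h3 : ∑ p ∈ I ×ˢ I, 1 / ((a p.1 + a p.2 : ℕ) : ℝ) ≤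
      ∑ p ∈ B ×ˢ B, 1 / ((p.1 + p.2 : ℕ) : ℝ) := by
    have h4 : ∑ p ∈ I ×ˢ I, 1 / ((a p.1 + a p.2 : ℕ) : ℝ) =
        ∑ p ∈ (I ×ˢ I).image (fun p => (a p.1, a p.2)), 1 / ((p.1 + p.2 : ℕ) : ℝ) := by
      rw [sum_image]
      intro p _ q _ hpq
      have h5 : a p.1 = a q.1 := congrArg Prod.fst hpq
      have h6 : a p.2 = a q.2 := congrArg Prod.snd hpq
      exact Prod.ext (hmono.injective h5) (hmono.injective h6)
    rw [h4]
    refine sum_le_sum_of_subset_of_nonneg (fun p hp => ?_) fun _ _ _ => by positivity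
    obtain ⟨q, hq, rfl⟩ := mem_image.1 hp
    obtain ⟨h5, h6⟩ := mem_product.1 hq
    exact mem_product.2 ⟨haB _ h5, haB _ h6⟩
  refine le_trans ?_ h3
  have h4 : ∑ p ∈ I ×ˢ I, 1 / C * (1 / (((p.1 : ℝ) + 1) ^ 2 + ((p.2 : ℝ) + 1) ^ 2)) ≤
      ∑ p ∈ I ×ˢ I, 1 / ((a p.1 + a p.2 : ℕ) : ℝ) := by
    refine sum_le_sum fun p hp => ?_
    obtain ⟨h5, h6⟩ := mem_product.1 hp
    have h7 := h p.1 (mem_Ico.1 h5).1
    have h8 := h p.2 (mem_Ico.1 h6).1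
    have h9 : (0 : ℝ) < ((a p.1 + a p.2 : ℕ) : ℝ) := by
      have := hle p.1
      have := (mem_Ico.1 h5).1
      exact_mod_cast (by omega : 0 < a p.1 + a p.2)
    have h10 : 1 / C * (1 / (((p.1 : ℝ) + 1) ^ 2 + ((p.2 : ℝ) + 1) ^ 2)) =
        1 / (C * (((p.1 : ℝ) + 1) ^ 2 + ((p.2 : ℝ) + 1) ^ 2)) := by
      rw [one_div_mul_one_div]
    rw [h10]
    apply one_div_le_one_div_of_le h9
    push_cast
    have h7' : (a p.1 : ℝ) ≤ C * ((p.1 : ℝ) + 1) ^ 2 := h7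
    have h8' : (a p.2 : ℝ) ≤ C * ((p.2 : ℝ) + 1) ^ 2 := h8
    linarith
  refine le_trans ?_ h4
  rw [← mul_sum]
  refine mul_le_mul_of_nonneg_left ?_ (by positivity)
  -- shift
  have h5 : ∑ p ∈ I ×ˢ I, 1 / (((p.1 : ℝ) + 1) ^ 2 + ((p.2 : ℝ) + 1) ^ 2) =
      ∑ n ∈ Icc (n₁ + 1) M, ∑ m ∈ Icc (n₁ + 1) M, 1 / ((n : ℝ) ^ 2 + (m : ℝ) ^ 2) := by
    have hIcc : Icc (n₁ + 1) M = I.image (fun i => i + 1) := by
      ext n
      simp only [hI, mem_image, mem_Ico, mem_Icc]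
      constructor
      · intro h
        exact ⟨n - 1, by omega, by omega⟩
      · rintro ⟨i, h, rfl⟩
        omega
    rw [hIcc, sum_product, sum_image (fun _ _ _ _ h => by simpa using h)]
    refine sum_congr rfl fun i _ => ?_
    rw [sum_image (fun _ _ _ _ h => by simpa using h)]
    refine sum_congr rfl fun j _ => ?_
    push_cast
    rfl
  rw [h5]
  have h6 := double_sum M
  -- the removed part
  have hpart : ∀ n : ℕ, ∑ m ∈ Icc 1 M, 1 / ((n : ℝ) ^ 2 + (m : ℝ) ^ 2) ≤ 2 := by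
    intro n
    have h7 := Pool.Agent.W369.ET.sum_sq M
    have h8 : ∑ m ∈ Icc 1 M, 1 / ((n : ℝ) ^ 2 + (m : ℝ) ^ 2) ≤ ∑ m ∈ Icc 1 M, 1 / (m : ℝ) ^ 2 := by
      refine sum_le_sum fun m hm => ?_
      have : (0 : ℝ) < m := by exact_mod_cast (mem_Icc.1 hm).1
      apply one_div_le_one_div_of_le (by positivity)
      nlinarith [sq_nonneg (n : ℝ)]
    have h9 : 0 ≤ 1 / (M : ℝ) := by positivity
    linarith
  set f : ℕ → ℕ → ℝ := fun n m => 1 / ((n : ℝ) ^ 2 + (m : ℝ) ^ 2) with hf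
  have hf0 : ∀ n m, 0 ≤ f n m := fun n m => by simp only [hf]; positivity
  have hfs : ∀ n m, f n m = f m n := fun n m => by simp only [hf]; rw [add_comm]
  have h7 : ∑ n ∈ Icc 1 M, ∑ m ∈ Icc 1 M, f n m ≤
      ∑ n ∈ Icc (n₁ + 1) M, ∑ m ∈ Icc (n₁ + 1) M, f n m +
      (∑ n ∈ Icc 1 n₁, ∑ m ∈ Icc 1 M, f n m + ∑ m ∈ Icc 1 n₁, ∑ n ∈ Icc 1 M, f n m) := by
    have h8 : ∀ g : ℕ → ℝ, (∀ n, 0 ≤ g n) → ∑ n ∈ Icc 1 M, g n ≤
        ∑ n ∈ Icc (n₁ + 1) M, g n + ∑ n ∈ Icc 1 n₁, g n := by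
      intro g hg
      rw [← sum_union]
      · refine sum_le_sum_of_subset_of_nonneg (fun n hn => ?_) fun _ _ _ => hg _
        rw [mem_union, mem_Icc, mem_Icc]
        have := mem_Icc.1 hn
        omega
      · rw [disjoint_left]
        intro n h9 h10
        have := mem_Icc.1 h9
        have := mem_Icc.1 h10
        omega
    have h9 := h8 (fun n => ∑ m ∈ Icc 1 M, f n m) (fun n => sum_nonneg fun _ _ => hf0 _ _)
    have h10 : ∑ n ∈ Icc (n₁ + 1) M, ∑ m ∈ Icc 1 M, f n m ≤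
        ∑ n ∈ Icc (n₁ + 1) M, ∑ m ∈ Icc (n₁ + 1) M, f n m +
        ∑ n ∈ Icc (n₁ + 1) M, ∑ m ∈ Icc 1 n₁, f n m := by
      rw [← sum_add_distrib]
      exact sum_le_sum fun n _ => h8 (fun m => f n m) (fun m => hf0 _ _)
    have h11 : ∑ n ∈ Icc (n₁ + 1) M, ∑ m ∈ Icc 1 n₁, f n m ≤
        ∑ m ∈ Icc 1 n₁, ∑ n ∈ Icc 1 M, f n m := by
      rw [sum_comm]
      refine sum_le_sum fun m _ => ?_
      refine sum_le_sum_of_subset_of_nonneg (fun n hn => ?_) fun _ _ _ => hf0 _ _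
      have := mem_Icc.1 hn
      exact mem_Icc.2 ⟨by omega, this.2⟩
    linarith
  have h8 : ∑ n ∈ Icc 1 n₁, ∑ m ∈ Icc 1 M, f n m ≤ 2 * n₁ := by
    calc ∑ n ∈ Icc 1 n₁, ∑ m ∈ Icc 1 M, f n m ≤ ∑ n ∈ Icc 1 n₁, (2 : ℝ) :=
          sum_le_sum fun n _ => hpart n
      _ = 2 * n₁ := by
          rw [sum_const, nsmul_eq_mul, Nat.card_Icc, Nat.add_sub_cancel, mul_comm]
  have h9 : ∑ m ∈ Icc 1 n₁, ∑ n ∈ Icc 1 M, f n m ≤ 2 * n₁ := by
    refine le_trans (le_of_eq ?_) h8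
    exact sum_congr rfl fun m _ => sum_congr rfl fun n _ => hfs n m
  linarith

/-- a lower bound for the mean -/
lemma mean_of_growth (A : Set ℕ) (hA : A.Infinite) (n₁ : ℕ) (C : ℝ) (hC : 0 < C)
    (hC1 : C ≤ 87 / 100)
    (h : ∀ i ≥ n₁, (Nat.nth (fun a => a ∈ A) i : ℝ) ≤ C * ((i : ℝ) + 1) ^ 2) :
    ∃ x₀ : ℕ, ∀ x : ℕ, x₀ ≤ x → 3 / 5 * (x : ℝ) ≤ ∑ n ∈ Icc 1 x, (r A n : ℝ) := by
  classical
  set a : ℕ → ℕ := fun i => Nat.nth (fun a => a ∈ A) i with ha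
  have hmono : StrictMono a := Nat.nth_strictMono hA
  have hmem : ∀ i, a i ∈ A := fun i => Nat.nth_mem_of_infinite hA i
  have hle : ∀ i, i ≤ a i := fun i => hmono.id_le i
  -- the count of pairs
  have hcount : ∀ (x : ℕ) (S : Finset (ℕ × ℕ)), (∀ p ∈ S, 1 ≤ a p.1 + a p.2 ∧ a p.1 + a p.2 ≤ x) →
      (S.card : ℝ) ≤ ∑ n ∈ Icc 1 x, (r A n : ℝ) := by
    intro x S hS
    have h1 : S.card = ∑ n ∈ Icc 1 x, (S.filter (fun p => a p.1 + a p.2 = n)).card := by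
      rw [card_eq_sum_card_fiberwise (f := fun p => a p.1 + a p.2) (t := Icc 1 x)]
      intro p hp
      have := hS p hp
      exact mem_coe.2 (mem_Icc.2 this)
    rw [h1]
    push_cast
    refine sum_le_sum fun n _ => ?_
    have h2 : (S.filter (fun p => a p.1 + a p.2 = n)).card ≤ r A n := by
      rw [r_eq]
      refine card_le_card_of_injOn (fun p => (a p.1, a p.2)) ?_ ?_
      · intro p hp
        have hp' := (mem_filter.1 (mem_coe.1 hp)).2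
        rw [mem_coe]
        unfold rf
        rw [mem_filter, HasAntidiagonal.mem_antidiagonal]
        exact ⟨hp', hmem _, hmem _⟩
      · intro p _ q _ hpq
        have h5 : a p.1 = a q.1 := congrArg Prod.fst hpq
        have h6 : a p.2 = a q.2 := congrArg Prod.snd hpq
        exact Prod.ext (hmono.injective h5) (hmono.injective h6)
    exact_mod_cast h2
  -- the choice of the union of two rectangles
  obtain ⟨x₀, hx₀⟩ := exists_nat_ge ((200 * (n₁ + 4)) ^ 2 : ℝ)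
  refine ⟨x₀, fun x hx => ?_⟩
  have hx' : (200 * ((n₁ : ℝ) + 4)) ^ 2 ≤ x := hx₀.trans (by exact_mod_cast hx)
  set s : ℝ := √((x : ℝ) / C) with hs
  have hx0 : (0 : ℝ) ≤ x := Nat.cast_nonneg x
  have hs2 : s ^ 2 = x / C := Real.sq_sqrt (by positivity)
  have hs0 : 0 ≤ s := Real.sqrt_nonneg _
  have hsx : C * s ^ 2 = x := by rw [hs2]; field_simp
  have hsbig : 200 * ((n₁ : ℝ) + 4) ≤ s := by
    apply Real.le_sqrt_of_sq_le
    rw [le_div_iff₀ hC]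
    have h2 : 0 ≤ (200 * ((n₁ : ℝ) + 4)) ^ 2 := by positivity
    nlinarith
  set u : ℕ := ⌊4 / 5 * s⌋₊ with hu
  set v : ℕ := ⌊3 / 5 * s⌋₊ with hv
  have hu1 : (u : ℝ) ≤ 4 / 5 * s := Nat.floor_le (by positivity)
  have hv1 : (v : ℝ) ≤ 3 / 5 * s := Nat.floor_le (by positivity)
  have hu2 : 4 / 5 * s < u + 1 := Nat.lt_floor_add_one _
  have hv2 : 3 / 5 * s < v + 1 := Nat.lt_floor_add_one _
  have hn0 : (0 : ℝ) ≤ n₁ := Nat.cast_nonneg _
  set n₂ := n₁ + 1 with hn₂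
  have hvn : n₂ ≤ v := by
    have : (n₂ : ℝ) ≤ v := by rw [hn₂]; push_cast; linarith
    exact_mod_cast this
  have huv : v ≤ u := Nat.floor_le_floor (by linarith)
  set S : Finset (ℕ × ℕ) := (Ico n₂ u) ×ˢ (Ico n₂ v) ∪ (Ico n₂ v) ×ˢ (Ico n₂ u) with hS
  have hcardS : (S.card : ℝ) = 2 * ((u : ℝ) - n₂) * (v - n₂) - (v - n₂) ^ 2 := by
    have h1 := card_union_add_card_inter ((Ico n₂ u) ×ˢ (Ico n₂ v)) ((Ico n₂ v) ×ˢ (Ico n₂ u))
    have h2 : ((Ico n₂ u) ×ˢ (Ico n₂ v)) ∩ ((Ico n₂ v) ×ˢ (Ico n₂ u)) =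
        (Ico n₂ v) ×ˢ (Ico n₂ v) := by
      ext p
      simp only [mem_inter, mem_product, mem_Ico]
      omega
    rw [h2, card_product, card_product, card_product, Nat.card_Ico, Nat.card_Ico] at h1
    have h3 : ((u - n₂ : ℕ) : ℝ) = (u : ℝ) - n₂ := by
      rw [Nat.cast_sub (by omega)]
    have h4 : ((v - n₂ : ℕ) : ℝ) = (v : ℝ) - n₂ := by
      rw [Nat.cast_sub (by omega)]
    have h5 : (S.card : ℝ) + ((v : ℝ) - n₂) * (v - n₂) =
        ((u : ℝ) - n₂) * (v - n₂) + (v - n₂) * (u - n₂) := by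
      rw [← h3, ← h4]
      exact_mod_cast h1
    linarith
  have h1 := hcount x S (fun p hp => by
    have hij : n₂ ≤ p.1 ∧ n₂ ≤ p.2 ∧ ((p.1 : ℝ) + 1) ^ 2 + ((p.2 : ℝ) + 1) ^ 2 ≤ s ^ 2 := by
      rw [hS, mem_union, mem_product, mem_product, mem_Ico, mem_Ico, mem_Ico, mem_Ico] at hp
      have hsq1 : (u : ℝ) ^ 2 ≤ (4 / 5 * s) ^ 2 := pow_le_pow_left₀ (by positivity) hu1 2
      have hsq2 : (v : ℝ) ^ 2 ≤ (3 / 5 * s) ^ 2 := pow_le_pow_left₀ (by positivity) hv1 2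
      rcases hp with ⟨⟨h2, h3⟩, h4, h5⟩ | ⟨⟨h2, h3⟩, h4, h5⟩
      · refine ⟨h2, h4, ?_⟩
        have h6 : ((p.1 : ℝ) + 1) ^ 2 ≤ (u : ℝ) ^ 2 :=
          pow_le_pow_left₀ (by positivity) (by exact_mod_cast h3) 2
        have h7 : ((p.2 : ℝ) + 1) ^ 2 ≤ (v : ℝ) ^ 2 :=
          pow_le_pow_left₀ (by positivity) (by exact_mod_cast h5) 2
        nlinarith
      · refine ⟨h2, h4, ?_⟩
        have h6 : ((p.1 : ℝ) + 1) ^ 2 ≤ (v : ℝ) ^ 2 :=
          pow_le_pow_left₀ (by positivity) (by exact_mod_cast h3) 2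
        have h7 : ((p.2 : ℝ) + 1) ^ 2 ≤ (u : ℝ) ^ 2 :=
          pow_le_pow_left₀ (by positivity) (by exact_mod_cast h5) 2
        nlinarith
    obtain ⟨h2, h3, h4⟩ := hij
    have h5 := h p.1 (by omega)
    have h6 := h p.2 (by omega)
    constructor
    · have := hle p.1
      omega
    · have h7 : ((a p.1 + a p.2 : ℕ) : ℝ) ≤ x := by
        push_cast
        have h5' : (a p.1 : ℝ) ≤ C * ((p.1 : ℝ) + 1) ^ 2 := h5
        have h6' : (a p.2 : ℝ) ≤ C * ((p.2 : ℝ) + 1) ^ 2 := h6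
        have h8 := mul_le_mul_of_nonneg_left h4 hC.le
        rw [hsx] at h8
        linarith
      exact_mod_cast h7)
  rw [hcardS] at h1
  refine le_trans ?_ h1
  -- 2 (u - n₂)(v - n₂) - (v - n₂)^2 ≥ 3/5 x
  have hc : (n₂ : ℝ) = n₁ + 1 := by rw [hn₂]; push_cast; ring
  set c : ℝ := (n₁ : ℝ) + 2 with hcdef
  have e1 : 4 / 5 * s - c ≤ (u : ℝ) - n₂ := by rw [hc, hcdef]; linarith
  have e2 : 3 / 5 * s - c ≤ (v : ℝ) - n₂ := by rw [hc, hcdef]; linarith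
  have e3 : (v : ℝ) - n₂ ≤ (u : ℝ) - n₂ := by
    have : (v : ℝ) ≤ u := by exact_mod_cast huv
    linarith
  have e0 : 0 ≤ 3 / 5 * s - c := by rw [hcdef]; linarith
  have hxC : (x : ℝ) ≤ 87 / 100 * s ^ 2 := by
    rw [← hsx]
    exact mul_le_mul_of_nonneg_right hC1 (by positivity)
  have hcs : 200 * c ≤ s := by rw [hcdef]; linarith
  have hc0 : 0 ≤ c := by rw [hcdef]; positivity
  set U := (u : ℝ) - n₂
  set V := (v : ℝ) - n₂
  have e4 : 2 * U * V - V ^ 2 ≥ 2 * U * (3 / 5 * s - c) - (3 / 5 * s - c) ^ 2 := by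
    nlinarith [mul_nonneg (sub_nonneg.2 e2) (sub_nonneg.2 e3),
      mul_nonneg (sub_nonneg.2 e2) (sub_nonneg.2 (e2.trans e3))]
  have e5 : 2 * U * (3 / 5 * s - c) ≥ 2 * (4 / 5 * s - c) * (3 / 5 * s - c) := by
    nlinarith [mul_nonneg (sub_nonneg.2 e1) e0]
  nlinarith [mul_nonneg hs0 hc0, mul_nonneg hs0 (sub_nonneg.2 hcs)]

end Pool.Agent.TH854.ET
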