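import Pool.Agent.TH854.ET.P5
import Pool.Agent.TH854.ET.P6

/-!
# Consequences of the variance law: the second question
-/

set_option autoImplicit false

open Finset

namespace Pool.Agent.TH854.ET

open Pool.Agent.W247.ET Pool.Agent.W962.ET

/-- a lower bound for the logarithmic mean of the representation function -/
theorem log_mean (A : Set ℕ) (hA : A.Infinite) (K n₁ : ℕ) (hn₁ : 1 ≤ n₁) (hK : ∀ n, r A n ≤ K)
    (C : ℝ) (hC : 0 < C)
    (h : ∀ i ≥ n₁, (Nat.nth (fun a => a ∈ A) i : ℝ) ≤ C * ((i : ℝ) + 1) ^ 2) :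
    ∃ D : ℝ, ∃ N₀ : ℕ, ∀ N ≥ N₀, Real.pi / (4 * C) * Real.log N - D ≤
      ∑ n ∈ Icc 1 N, (r A n : ℝ) / n := by
  classical
  obtain ⟨N₀, hN₀⟩ := exists_nat_ge (4 * C + 1)
  refine ⟨Real.pi / (4 * C) * (Real.log C + 2 * Real.log 2) + (3 + 4 * n₁) / C + K, N₀,
    fun N hN => ?_⟩
  have hN4 : 4 * C + 1 ≤ (N : ℝ) := hN₀.trans (by exact_mod_cast hN)
  have hN1 : 1 ≤ N := by
    have : (1 : ℝ) ≤ N := by linarith
    exact_mod_cast this
  have hN0 : (0 : ℝ) < N := by exact_mod_cast hN1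
  set s : ℝ := √((N : ℝ) / C) with hs
  have hs2 : s ^ 2 = N / C := Real.sq_sqrt (by positivity)
  have hs0 : 0 ≤ s := Real.sqrt_nonneg _
  have hsbig : 2 ≤ s := by
    apply Real.le_sqrt_of_sq_le
    rw [le_div_iff₀ hC]
    linarith
  set M : ℕ := ⌊s⌋₊ with hM
  have hM1 : (M : ℝ) ≤ s := Nat.floor_le hs0
  have hM2 : s < M + 1 := Nat.lt_floor_add_one _
  have hM3 : s / 2 ≤ M := by linarith
  have hMpos : 1 ≤ M := by
    have : (0 : ℝ) < M := by linarith
    exact_mod_cast this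
  have h1 := s_low A hA n₁ hn₁ C hC h N M (by
    have : (M : ℝ) ^ 2 ≤ s ^ 2 := pow_le_pow_left₀ (by positivity) hM1 2
    calc C * (M : ℝ) ^ 2 ≤ C * s ^ 2 := mul_le_mul_of_nonneg_left this hC.le
      _ = N := by rw [hs2]; field_simp)
  have h2 := (harm M hMpos).1
  have h3 : Real.log s - Real.log 2 ≤ Real.log M := by
    rw [← Real.log_div (by linarith) (by norm_num)]
    exact Real.log_le_log (by linarith) hM3
  have h4 : Real.log s = (Real.log N - Real.log C) / 2 := by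
    rw [hs, Real.log_sqrt (by positivity), Real.log_div hN0.ne' hC.ne']
  -- transfer
  have hsplit : ∑ n ∈ Icc 1 (2 * N), (rep (cut A N) n : ℝ) / n =
      ∑ n ∈ Icc 1 N, (rep (cut A N) n : ℝ) / n + ∑ n ∈ Ioc N (2 * N), (rep (cut A N) n : ℝ) / n := by
    rw [← sum_union]
    · congr 1
      ext n
      simp only [mem_union, mem_Icc, mem_Ioc]
      omega
    · rw [disjoint_left]
      intro n h2 h3
      have := (mem_Icc.1 h2).2
      have := (mem_Ioc.1 h3).1
      omega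
  have hrep : ∀ n, (rep (cut A N) n : ℝ) ≤ r A n := fun n => by exact_mod_cast rep_le A N n
  have hrK : ∀ n, (r A n : ℝ) ≤ K := fun n => by exact_mod_cast hK n
  have h5 : ∑ n ∈ Icc 1 N, (rep (cut A N) n : ℝ) / n ≤ ∑ n ∈ Icc 1 N, (r A n : ℝ) / n :=
    sum_le_sum fun n _ => div_le_div_of_nonneg_right (hrep n) (by positivity)
  have h6 : ∑ n ∈ Ioc N (2 * N), (rep (cut A N) n : ℝ) / n ≤ K := by
    calc ∑ n ∈ Ioc N (2 * N), (rep (cut A N) n : ℝ) / n
        ≤ ∑ _n ∈ Ioc N (2 * N), (K : ℝ) / (N : ℝ) := by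
          refine sum_le_sum fun n hn => ?_
          have h3 : (N : ℝ) ≤ n := by exact_mod_cast (mem_Ioc.mp hn).1.le
          calc (rep (cut A N) n : ℝ) / n ≤ K / n :=
                div_le_div_of_nonneg_right ((hrep n).trans (hrK n)) (by linarith)
            _ ≤ K / N := div_le_div_of_nonneg_left (Nat.cast_nonneg K) hN0 h3
      _ = K := by
          rw [sum_const, Nat.card_Ioc, nsmul_eq_mul]
          have : 2 * N - N = N := by omega
          rw [this]
          field_simp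
  have hpi := Real.pi_pos
  have h7 : 1 / C * (Real.pi / 2 * ((Real.log N - Real.log C) / 2 - Real.log 2) - 3 - 4 * n₁) ≤
      1 / C * (Real.pi / 2 * ∑ n ∈ Icc 1 M, 1 / (n : ℝ) - 3 - 4 * n₁) := by
    apply mul_le_mul_of_nonneg_left _ (by positivity)
    have : Real.pi / 2 * ((Real.log N - Real.log C) / 2 - Real.log 2) ≤
        Real.pi / 2 * ∑ n ∈ Icc 1 M, 1 / (n : ℝ) := by
      apply mul_le_mul_of_nonneg_left _ (by positivity)
      linarith
    linarith
  have h8 : 1 / C * (Real.pi / 2 * ((Real.log N - Real.log C) / 2 - Real.log 2) - 3 - 4 * n₁) =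
      Real.pi / (4 * C) * Real.log N - (Real.pi / (4 * C) * (Real.log C + 2 * Real.log 2) +
        (3 + 4 * n₁) / C) := by
    field_simp
    ring
  rw [h8] at h7
  linarith

theorem second_question (g : ℕ) (hg : 1 ≤ g) (A : Set ℕ) (hA : A.Infinite)
    (h1 : ∃ n₀, ∀ n ≥ n₀, r A n ≤ 2 * g + 1) (C : ℝ)
    (hC : 4 * (2 * g - 1369 / 1260) * C < Real.pi) :
    ∀ n₁ : ℕ, ∃ n ≥ n₁, C * ((n : ℝ) + 1) ^ 2 < Nat.nth (fun a => a ∈ A) n := by
  classical
  obtain ⟨n₀, h1⟩ := h1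
  intro n₁'
  by_contra hcon
  push Not at hcon
  set n₁ := n₁' + 1 with hn₁
  have h : ∀ i ≥ n₁, (Nat.nth (fun a => a ∈ A) i : ℝ) ≤ C * ((i : ℝ) + 1) ^ 2 :=
    fun i hi => hcon i (by omega)
  have hmono : StrictMono (Nat.nth (fun a => a ∈ A)) := Nat.nth_strictMono hA
  have hC0 : 0 < C := by
    have h2 := h n₁ le_rfl
    have h3 : n₁ ≤ Nat.nth (fun a => a ∈ A) n₁ := hmono.id_le n₁
    have h4 : (1 : ℝ) ≤ Nat.nth (fun a => a ∈ A) n₁ := by exact_mod_cast (by omega : 1 ≤ _)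
    by_contra h5
    have h6 : C * ((n₁ : ℝ) + 1) ^ 2 ≤ 0 :=
      mul_nonpos_of_nonpos_of_nonneg (not_lt.1 h5) (by positivity)
    linarith
  have hg0 : (1 : ℝ) ≤ g := by exact_mod_cast hg
  have hpi := Real.pi_pos
  have hC1 : C ≤ 87 / 100 := by
    have h2 := Real.pi_lt_d4
    have h3 : 4 * (2 * 1 - 1369 / 1260) * C ≤ 4 * (2 * g - 1369 / 1260) * C := by
      apply mul_le_mul_of_nonneg_right _ hC0.le
      linarith
    linarith
  set M := n₀ + 2 * g + 1 with hMdef
  have hM : ∀ n, r A n ≤ M := by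
    intro n
    rcases lt_or_ge n n₀ with h | h
    · have := r_le_succ A n; omega
    · have := h1 n h; omega
  obtain ⟨x₀, hmean⟩ := mean_of_growth A hA n₁ C hC0 hC1 h
  obtain ⟨D, N₀, hD⟩ := log_mean A hA M n₁ (by omega) hM C hC0 h
  set m : ℝ := Real.pi / (4 * C) with hm
  have hm0 : 0 < m := by positivity
  have hm1 : 2 * (g : ℝ) - 1369 / 1260 < m := by
    rw [hm, lt_div_iff₀ (by positivity)]
    linarith
  set e : ℝ := m + 1369 / 1260 - 2 * g with he
  have he0 : 0 < e := by rw [he]; linarith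
  obtain ⟨C₁, hC₁⟩ := law M x₀ m (m * e / 2) (by positivity)
  have hC₁ := hC₁ A hM hmean
  set Q : ℝ := (M + |m|) ^ 2 + (m + e) * M with hQ
  have hQ0 : 0 ≤ Q := by positivity
  obtain ⟨C', hC'0, hC'⟩ := reduce M n₀ Q hQ0
  set G : ℕ → ℝ := fun n => m ^ 2 - (m + e) * r A n with hG
  have hrM : ∀ n, (r A n : ℝ) ≤ M := fun n => by exact_mod_cast hM n
  have h2 := hC' A hM (fun n => ((r A n : ℝ) - m) ^ 2 - 1369 / 1260 * (r A n : ℝ)) G
    (fun n => by
      have := F_le (lam := m) (hM n)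
      have h3 : 0 ≤ (m + e) * M := by positivity
      rw [hQ]; linarith)
    (fun n => by
      have h3 : 0 ≤ (M + |m|) ^ 2 := by positivity
      have h4 := mul_le_mul_of_nonneg_left (hrM n) (by positivity : 0 ≤ m + e)
      simp only [hG]
      rw [hQ]
      nlinarith [sq_nonneg m])
    (fun n hn hn2 => by
      obtain ⟨t, ht⟩ := r_even A n hn2
      have h3 := h1 n hn
      have h5 : t ≤ g := by omega
      have h5' : (t : ℝ) ≤ g := by exact_mod_cast h5
      have h6 : (r A n : ℝ) = 2 * t := by rw [ht]; push_cast; ring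
      simp only [hG]
      rw [h6]
      have ht0 : (0 : ℝ) ≤ t := Nat.cast_nonneg t
      have h10 : (2 * (t : ℝ) - m) ^ 2 - 1369 / 1260 * (2 * t) =
          m ^ 2 - (m + e) * (2 * t) + 4 * (t * (t - g)) := by
        rw [he]; ring
      rw [h10]
      have h11 : (t : ℝ) * (t - g) ≤ 0 :=
        mul_nonpos_of_nonneg_of_nonpos ht0 (by linarith)
      linarith)
  have h3 : ∀ N : ℕ, ∑ n ∈ Icc 1 N, G n / n = m ^ 2 * ∑ n ∈ Icc 1 N, 1 / (n : ℝ) -
      (m + e) * ∑ n ∈ Icc 1 N, (r A n : ℝ) / n := by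
    intro N
    simp only [hG]
    rw [mul_sum, mul_sum, ← sum_sub_distrib]
    refine sum_congr rfl fun n _ => ?_
    ring
  have h4 : ∀ N : ℕ, N₀ ≤ N → 1 ≤ N →
      m * e / 2 * Real.log N ≤ C₁ + C' + m ^ 2 + (m + e) * D := by
    intro N hN0 hN
    have h5 := hC₁ N hN
    have h6 := h2 N
    rw [h3 N] at h6
    have h7 := mul_le_mul_of_nonneg_left (hD N hN0) (by positivity : 0 ≤ m + e)
    have h8 := mul_le_mul_of_nonneg_left (harm N hN).2 (by positivity : 0 ≤ m ^ 2)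
    have h9 : (m + e) * (m * Real.log N - D) = m ^ 2 * Real.log N + m * e * Real.log N -
        (m + e) * D := by ring
    rw [h9] at h7
    linarith
  have hlim : Filter.Tendsto (fun N : ℕ => m * e / 2 * Real.log N) Filter.atTop Filter.atTop :=
    (Real.tendsto_log_atTop.comp tendsto_natCast_atTop_atTop).const_mul_atTop (by positivity)
  obtain ⟨N, hN⟩ := ((hlim.eventually_gt_atTop (C₁ + C' + m ^ 2 + (m + e) * D)).and
    ((Filter.eventually_ge_atTop N₀).and (Filter.eventually_ge_atTop 1))).exists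
  have := h4 N hN.2.1 hN.2.2
  linarith [hN.1]

end Pool.Agent.TH854.ET
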